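import Mathlib.Topology.Sheaves.Presheaf
import Mathlib.Data.Int.ConditionallyCompleteOrder
import Mathlib.Data.Int.Star
import Mathlib.Algebra.Order.Ring.Star
import Mathlib.Tactic.Bound
import Mathlib.GroupTheory.FiniteAbelian.Basic
import Mathlib.GroupTheory.Schreier
import Mathlib.GroupTheory.SpecificGroups.Alternating.KleinFour
import Mathlib.GroupTheory.SpecificGroups.ZGroup

-- ======== part 0: formerly Pool.Agent.MP_6b47b1_al.Basic
section MrgPart0

/-! General lemmas: powers of two modulo powers of three, solubility of small symmetric groups,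
and the passage through a central extension. -/

set_option autoImplicit false

namespace Pool.Agent.MP_6b47b1_al

theorem two_pow_three_pow (i : ℕ) :
    ∃ w : ℤ, (2 : ℤ) ^ (3 ^ i) = -1 + 3 ^ (i + 1) * (1 + 3 * w) := by
  induction i with
  | zero => exact ⟨0, by norm_num⟩
  | succ i ih =>
    obtain ⟨w, hw⟩ := ih
    refine ⟨w - 3 ^ i * (1 + 3 * w) ^ 2 + 3 ^ i * 3 ^ i * (1 + 3 * w) ^ 3, ?_⟩
    rw [pow_succ 3 i, pow_mul, hw]
    ring

theorem four_pow_three_pow (i : ℕ) :
    ∃ w : ℤ, (4 : ℤ) ^ (3 ^ i) = 1 + 3 ^ (i + 1) * (1 + 3 * w) := by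
  induction i with
  | zero => exact ⟨0, by norm_num⟩
  | succ i ih =>
    obtain ⟨w, hw⟩ := ih
    refine ⟨w + 3 ^ i * (1 + 3 * w) ^ 2 + 3 ^ i * 3 ^ i * (1 + 3 * w) ^ 3, ?_⟩
    rw [pow_succ 3 i, pow_mul, hw]
    ring

theorem exists_four_pow (K : ℕ) (u : ℤ) (hu : (3 : ℤ) ∣ u - 1) :
    ∃ j : ℕ, (3 : ℤ) ^ (K + 1) ∣ u - 4 ^ j := by
  induction K with
  | zero => exact ⟨0, by simpa using hu⟩
  | succ K ih =>
    obtain ⟨j, v, hv⟩ := ih
    obtain ⟨w, hw⟩ := four_pow_three_pow K
    have h4 : (3 : ℤ) ∣ 4 ^ j - 1 := by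
      simpa using sub_dvd_pow_sub_pow (4 : ℤ) 1 j
    obtain ⟨e, he⟩ := h4
    have he' : (4 : ℤ) ^ j = 1 + 3 * e := by linarith
    have hu' : u = 1 + 3 * e + 3 ^ (K + 1) * v := by linarith
    have hcases : ∃ c : ℤ, v = 3 * c ∨ v = 3 * c + 1 ∨ v = 3 * c + 2 := ⟨v / 3, by omega⟩
    obtain ⟨c, hc | hc | hc⟩ := hcases
    · refine ⟨j, c, ?_⟩
      rw [hv, hc]; ring
    · refine ⟨j + 3 ^ K, c - w - e * (1 + 3 * w), ?_⟩
      rw [pow_add 4 j, hw, he', hu', hc]; ring
    · refine ⟨j + 3 ^ K * 2,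
        c - 2 * w - 2 * e * (1 + 3 * w) - 3 ^ K * (1 + 3 * e) * (1 + 3 * w) ^ 2, ?_⟩
      rw [pow_add 4 j, pow_mul, hw, he', hu', hc]; ring

/-- Every integer prime to three has an inverse modulo a power of three which is a power of two. -/
theorem exists_inv_two_pow (K : ℕ) (t : ℤ) (ht : ¬ (3 : ℤ) ∣ t) :
    ∃ j : ℕ, (3 : ℤ) ^ (K + 1) ∣ 2 ^ j * t - 1 := by
  have hcop : IsCoprime t ((3 : ℤ) ^ (K + 1)) := by
    apply IsCoprime.pow_right
    exact ((Int.prime_three.coprime_iff_not_dvd).2 ht).symm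
  obtain ⟨s, r, hsr⟩ := hcop
  have h3 : (3 : ℤ) ∣ s * t - 1 := ⟨-(r * 3 ^ K), by rw [← hsr]; ring⟩
  have hs : (3 : ℤ) ∣ s - 1 ∨ (3 : ℤ) ∣ s - 2 := by
    have : ¬ (3 : ℤ) ∣ s := by
      rintro ⟨c, hc⟩
      rw [hc] at h3
      have : (3 : ℤ) ∣ 3 * c * t := ⟨c * t, by ring⟩
      omega
    omega
  rcases hs with hs | hs
  · obtain ⟨j, v, hv⟩ := exists_four_pow K s hs
    refine ⟨2 * j, -r - v * t, ?_⟩
    have : (2 : ℤ) ^ (2 * j) = s - 3 ^ (K + 1) * v := by
      rw [pow_mul]; norm_num; linarith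
    rw [this]; linear_combination hsr
  · obtain ⟨j, v, hv⟩ := exists_four_pow K (-s) (by omega)
    obtain ⟨w, hw⟩ := two_pow_three_pow K
    refine ⟨2 * j + 3 ^ K, -r + v * t + (1 + 3 * w) * (-s - 3 ^ (K + 1) * v) * t, ?_⟩
    have : (2 : ℤ) ^ (2 * j) = -s - 3 ^ (K + 1) * v := by
      rw [pow_mul]; norm_num; linarith
    rw [pow_add 2, this, hw]; linear_combination hsr

theorem solvable_perm_fin4 : Group.IsSolvable (Equiv.Perm (Fin 4)) := by
  have h4 : Nat.card (Fin 4) = 4 := by simp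
  have := alternatingGroup.kleinFour_isKleinFour h4
  have : Group.IsSolvable (alternatingGroup.kleinFour (Fin 4)) :=
    Group.isSolvable_of_comm fun a b => IsKleinFour.isMulCommutative.is_comm.comm a b
  have : Group.IsSolvable (alternatingGroup (Fin 4)) := by
    refine Group.isSolvable_of_ker_le_range (alternatingGroup.kleinFour (Fin 4)).subtype
      (Abelianization.of) ?_
    rw [Subgroup.range_subtype, alternatingGroup.kleinFour_eq_commutator h4,
      Abelianization.ker_of]
  refine Group.isSolvable_of_ker_le_range (alternatingGroup (Fin 4)).subtype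
    Equiv.Perm.sign ?_
  rw [Subgroup.range_subtype]
  exact le_of_eq rfl

theorem solvable_perm_of_card_le {α : Type} [Finite α] (h : Nat.card α ≤ 4) :
    Group.IsSolvable (Equiv.Perm α) := by
  have := solvable_perm_fin4
  let e : α ↪ Fin 4 := (Finite.equivFin α).toEmbedding.trans (Fin.castLEEmb h)
  exact Group.isSolvable_of_isSolvable_injective (Equiv.Perm.viaEmbeddingHom_injective e)

theorem mem_center_of_gen {G : Type} [Group G] {a b g : G}
    (hgen : Subgroup.closure {a, b} = ⊤) (ha : Commute g a) (hb : Commute g b) :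
    g ∈ Subgroup.center G := by
  rw [Subgroup.mem_center_iff]
  intro y
  have : Subgroup.closure {a, b} ≤ Subgroup.centralizer {g} := by
    rw [Subgroup.closure_le]
    rintro y (rfl | rfl)
    · simpa [Subgroup.mem_centralizer_iff] using ha.eq
    · simpa [Subgroup.mem_centralizer_iff] using hb.eq
  have hy := this (hgen ▸ Subgroup.mem_top y)
  simpa [Subgroup.mem_centralizer_iff, eq_comm] using hy

theorem gen_quot {G : Type} [Group G] {a b : G} (hgen : Subgroup.closure {a, b} = ⊤)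
    (N : Subgroup G) [N.Normal] :
    Subgroup.closure {(a : G ⧸ N), (b : G ⧸ N)} = ⊤ := by
  have := congrArg (Subgroup.map (QuotientGroup.mk' N)) hgen
  rw [MonoidHom.map_closure, Subgroup.map_top_of_surjective _ (QuotientGroup.mk'_surjective N),
    Set.image_pair] at this
  exact this

open scoped IsMulCommutative in
/-- A two-generator group with torsion abelianisation whose central quotient is finite and
soluble is itself finite and soluble. -/
theorem central_step {G : Type} [Group G] {a b : G} (hgen : Subgroup.closure {a, b} = ⊤)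
    (N : ℕ) (hN : 0 < N)
    (hab : ∀ (M : Type) [CommGroup M] (f : G →* M), f a ^ N = 1 ∧ f b ^ N = 1)
    (h : Finite (G ⧸ Subgroup.center G) ∧ Group.IsSolvable (G ⧸ Subgroup.center G)) :
    Finite G ∧ Group.IsSolvable G := by
  obtain ⟨h1, h2⟩ := h
  refine ⟨?_, ?_⟩
  · have : (Subgroup.center G).FiniteIndex := Subgroup.finiteIndex_of_finite_quotient
    have : Group.FG G := by
      rw [Group.fg_iff]
      exact ⟨{a, b}, hgen, Set.toFinite _⟩
    let φ := MonoidHom.transferCenterPow G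
    have hφ : ∀ g : G, φ g ^ N = 1 := by
      intro g
      have hg : g ∈ Subgroup.closure {a, b} := hgen ▸ Subgroup.mem_top g
      induction hg using Subgroup.closure_induction with
      | mem x hx =>
        rcases hx with rfl | rfl
        · exact (hab _ φ).1
        · exact (hab _ φ).2
      | one => simp
      | mul x y _ _ hx hy => rw [map_mul, mul_pow, hx, hy, one_mul]
      | inv x _ hx => rw [map_inv, inv_pow, hx, inv_one]
    have htor : IsMulTorsion (Subgroup.center G) := by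
      intro z
      rw [isOfFinOrder_iff_pow_eq_one]
      refine ⟨(Subgroup.center G).index * N,
        Nat.mul_pos (Nat.pos_of_ne_zero Subgroup.FiniteIndex.index_ne_zero) hN, ?_⟩
      have := congrArg Subtype.val (hφ z)
      apply Subtype.ext
      simpa [φ, pow_mul] using this
    have : Finite (Subgroup.center G) := CommGroup.finite_of_fg_isMulTorsion _ htor
    exact Finite.of_subgroup_quotient (Subgroup.center G)
  · exact (Group.isSolvable_iff_subgroup_quotient (Subgroup.center G)).2 ⟨inferInstance, h2⟩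

end Pool.Agent.MP_6b47b1_al

end MrgPart0

-- ======== part 1: formerly Pool.Agent.MP_6b47b1_al.Core
section MrgPart1

/-! A group generated by two elements satisfying the relations of `PSL(2, ℤ/3^(K+1))` below is
finite and soluble: a direct coset enumeration along the Iwahori and Bruhat decompositions. -/

set_option autoImplicit false

namespace Pool.Agent.MP_6b47b1_al

open Subgroup Pointwise

theorem zpow_congr {Q : Type} [Group Q] {a : Q} {m : ℕ} (ha : a ^ m = 1) {s t : ℤ}
    (h : (m : ℤ) ∣ s - t) : a ^ s = a ^ t := by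
  obtain ⟨c, hc⟩ := h
  have : s = t + m * c := by linarith
  rw [this, zpow_add, zpow_mul, zpow_natCast, ha, one_zpow, mul_one]

/-- The relations used in the coset enumeration. -/
structure Rel {Q : Type} [Group Q] (K : ℕ) (n : ℤ) (a b x h : Q) : Prop where
  hn : 2 * n = 3 ^ (K + 1) + 1
  ha : a ^ (3 ^ (K + 1)) = 1
  hb : b ^ (3 ^ (K + 1)) = 1
  xdef : a * b * a = x
  xdef' : b * a * b = x
  xx : x * x = 1
  xa : SemiconjBy x a b
  xb : SemiconjBy x b a
  hA : SemiconjBy h a (a ^ (4 : ℤ))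
  hB : SemiconjBy h (b ^ (4 : ℤ)) b
  xh : SemiconjBy x h h⁻¹
  w2 : a ^ (2 : ℤ) * b ^ n * a ^ (2 : ℤ) = h * x

namespace Rel

variable {Q : Type} [Group Q] {K : ℕ} {n : ℤ} {a b x h : Q} (R : Rel K n a b x h)
include R

theorem ca {s t : ℤ} (hst : (3 : ℤ) ^ (K + 1) ∣ s - t) : a ^ s = a ^ t :=
  zpow_congr R.ha (by exact_mod_cast hst)

theorem cb {s t : ℤ} (hst : (3 : ℤ) ^ (K + 1) ∣ s - t) : b ^ s = b ^ t :=
  zpow_congr R.hb (by exact_mod_cast hst)

theorem four_n : (3 : ℤ) ^ (K + 1) ∣ 4 * n ^ 2 - 1 :=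
  ⟨3 ^ (K + 1) + 2, by have := R.hn; linear_combination (2 * n + 3 ^ (K + 1) + 1) * this⟩

theorem claim (j : ℕ) : ∀ s t : ℤ, (3 : ℤ) ^ (K + 1) ∣ s - 2 ^ j →
    (3 : ℤ) ^ (K + 1) ∣ 2 ^ j * t - 1 → a ^ s * b ^ t * a ^ s = h ^ j * x := by
  induction j using Nat.twoStepInduction with
  | zero =>
    intro s t hs ht
    rw [R.ca hs, R.cb (s := t) (t := 1) (by simpa using ht)]
    simpa using R.xdef
  | one =>
    intro s t hs ht
    have ht' : (3 : ℤ) ^ (K + 1) ∣ t - n := by
      obtain ⟨c, hc⟩ := ht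
      exact ⟨n * c - t, by have := R.hn; linear_combination n * hc - t * this⟩
    rw [R.ca hs, R.cb ht']
    simpa using R.w2
  | more j ih _ =>
    intro s t hs ht
    have h1 := ih (2 ^ j) (4 * t) (by simp) (by
      obtain ⟨c, hc⟩ := ht
      exact ⟨c, by linear_combination hc⟩)
    have e1 : h * a ^ ((2 : ℤ) ^ j) = a ^ s * h := by
      have := (R.hA.zpow_right (2 ^ j)).eq
      rw [this, ← zpow_mul, R.ca hs]
      congr 2; ring
    have e2 : h * b ^ (4 * t) = b ^ t * h := by
      have := (R.hB.zpow_right t).eq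
      rwa [← zpow_mul] at this
    have e3 : h * (a ^ ((2 : ℤ) ^ j) * b ^ (4 * t) * a ^ ((2 : ℤ) ^ j))
        = a ^ s * b ^ t * a ^ s * h := by
      calc _ = (h * a ^ ((2 : ℤ) ^ j)) * b ^ (4 * t) * a ^ ((2 : ℤ) ^ j) := by group
        _ = a ^ s * (h * b ^ (4 * t)) * a ^ ((2 : ℤ) ^ j) := by rw [e1]; group
        _ = a ^ s * b ^ t * (h * a ^ ((2 : ℤ) ^ j)) := by rw [e2]; group
        _ = _ := by rw [e1]; group
    have e4 : h * (h ^ j * x) = h ^ (j + 2) * x * h := by
      rw [mul_assoc (h ^ (j + 2)), R.xh.eq]; group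
    rw [h1, e4] at e3
    exact (mul_right_cancel e3).symm

theorem xinv : x⁻¹ = x := inv_eq_of_mul_eq_one_right R.xx

theorem h_order : h ^ (3 ^ K) = 1 := by
  obtain ⟨w, hw⟩ := two_pow_three_pow K
  have := R.claim (3 ^ K) (-1) (-1) ⟨-(1 + 3 * w), by rw [hw]; ring⟩
    ⟨-(1 + 3 * w), by rw [hw]; ring⟩
  have h2 : a ^ (-1 : ℤ) * b ^ (-1 : ℤ) * a ^ (-1 : ℤ) = x := by
    rw [← R.xinv, ← R.xdef]; group
  rw [h2] at this
  simpa using this.symm

theorem xhj (j : ℕ) : x * h ^ j = (h ^ j)⁻¹ * x := by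
  have := (R.xh.pow_right j).eq
  rwa [inv_pow] at this

/-- The Bruhat relation for powers of `b` with exponent prime to three. -/
theorem bruhat (t : ℤ) (ht : ¬ (3 : ℤ) ∣ t) : ∃ (s : ℤ) (j : ℕ), (3 : ℤ) ∣ s * t - 1 ∧
    b ^ t = a ^ (-s) * x * (h ^ j)⁻¹ * a ^ (-s) := by
  obtain ⟨j, hj⟩ := exists_inv_two_pow K t ht
  refine ⟨2 ^ j, j, (Dvd.intro_left _ (pow_succ 3 K).symm).trans hj, ?_⟩
  have := R.claim j (2 ^ j) t (by simp) hj
  have h2 : h ^ j * x = x * (h ^ j)⁻¹ := by
    have := R.xhj j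
    calc h ^ j * x = h ^ j * ((h ^ j)⁻¹ * x) * (x⁻¹ * h ^ j * x) := by group
      _ = x * (x⁻¹ * h ^ j * x) := by group
      _ = x * (x * h ^ j * x) := by rw [R.xinv]
      _ = x * ((h ^ j)⁻¹ * (x * x)) := by rw [this]; group
      _ = _ := by rw [R.xx, mul_one]
  calc b ^ t = a ^ (-(2 : ℤ) ^ j) * (a ^ ((2 : ℤ) ^ j) * b ^ t * a ^ ((2 : ℤ) ^ j))
        * a ^ (-(2 : ℤ) ^ j) := by group
    _ = _ := by rw [this, h2]; group

theorem pa : IsPGroup 3 (zpowers a) := by
  apply IsPGroup.of_card_dvd_pow (n := K + 1)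
  rw [Nat.card_zpowers]
  exact orderOf_dvd_of_pow_eq_one R.ha

theorem ph : IsPGroup 3 (zpowers h) := by
  apply IsPGroup.of_card_dvd_pow (n := K)
  rw [Nat.card_zpowers]
  exact orderOf_dvd_of_pow_eq_one R.h_order

theorem pb : IsPGroup 3 (zpowers (b ^ (3 : ℤ))) := by
  apply IsPGroup.of_card_dvd_pow (n := K + 1)
  rw [Nat.card_zpowers]
  apply orderOf_dvd_of_pow_eq_one
  rw [← zpow_natCast, ← zpow_mul, mul_comm, zpow_mul, zpow_natCast, R.hb, one_zpow]

theorem fa : IsOfFinOrder a := isOfFinOrder_iff_pow_eq_one.2 ⟨_, by positivity, R.ha⟩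
theorem fb : IsOfFinOrder b := isOfFinOrder_iff_pow_eq_one.2 ⟨_, by positivity, R.hb⟩
theorem fh : IsOfFinOrder h := isOfFinOrder_iff_pow_eq_one.2 ⟨_, by positivity, R.h_order⟩

theorem h_norm : zpowers h ≤ normalizer (zpowers a : Set Q) := by
  rw [zpowers_le]
  have : Finite (zpowers a) := R.fa.finite_zpowers
  apply Subgroup.mem_normalizer_fintype
  rintro _ ⟨s, rfl⟩
  refine ⟨4 * s, ?_⟩
  have := (R.hA.zpow_right s).eq
  simp only []
  rw [this, ← zpow_mul]; group

theorem pB : IsPGroup 3 (zpowers a ⊔ zpowers h : Subgroup Q) :=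
  IsPGroup.to_sup_of_normal_left' R.pa R.ph R.h_norm

theorem finB : Finite (zpowers a ⊔ zpowers h : Subgroup Q) := by
  have h1 : ((zpowers h ⊔ zpowers a : Subgroup Q) : Set Q) = (zpowers h : Set Q) * zpowers a :=
    coe_mul_of_left_le_normalizer_right _ _ R.h_norm
  have h2 : ((zpowers h : Set Q) * zpowers a).Finite :=
    Set.Finite.mul R.fh.finite_zpowers R.fa.finite_zpowers
  rw [sup_comm]
  rw [← h1] at h2
  exact h2

omit R in
theorem left_inv_closed {y : Q} (hy : IsOfFinOrder y) (P : Q → Prop)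
    (hP : ∀ g, P g → P (y * g)) (g : Q) (hg : P g) : P (y⁻¹ * g) := by
  obtain ⟨N, hN, hyN⟩ := isOfFinOrder_iff_pow_eq_one.1 hy
  have key : ∀ k : ℕ, P (y ^ k * g) := by
    intro k
    induction k with
    | zero => simpa using hg
    | succ k ih => rw [pow_succ', mul_assoc]; exact hP _ ih
  have : y⁻¹ = y ^ (N - 1) := by
    rw [inv_eq_iff_mul_eq_one, ← pow_succ', Nat.sub_add_cancel hN, hyN]
  rw [this]; exact key _

/-- Iwahori factorisation. -/
theorem iwahori (g : Q) (hg : g ∈ closure {a, h, b ^ (3 : ℤ)}) :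
    ∃ c : ℤ, ∃ β ∈ (zpowers a ⊔ zpowers h : Subgroup Q), g = b ^ (3 * c) * β := by
  have haB : a ∈ (zpowers a ⊔ zpowers h : Subgroup Q) := mem_sup_left (mem_zpowers a)
  have hhB : h ∈ (zpowers a ⊔ zpowers h : Subgroup Q) := mem_sup_right (mem_zpowers h)
  have step : ∀ y ∈ ({a, h, b ^ (3 : ℤ)} : Set Q), ∀ g : Q,
      (∃ c : ℤ, ∃ β ∈ (zpowers a ⊔ zpowers h : Subgroup Q), g = b ^ (3 * c) * β) →
      (∃ c : ℤ, ∃ β ∈ (zpowers a ⊔ zpowers h : Subgroup Q), y * g = b ^ (3 * c) * β) := by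
    rintro y hy g ⟨c, β, hβ, rfl⟩
    rcases hy with rfl | rfl | rfl
    · obtain ⟨s, j, hs, hb⟩ := R.bruhat (3 * c - 1) (by omega)
      have hs' : (3 : ℤ) ∣ -s - 1 := by
        have : s * (3 * c - 1) - 1 = 3 * (s * c) + (-s - 1) := by ring
        rw [this] at hs
        omega
      obtain ⟨c', hc'⟩ := hs'
      refine ⟨c', (h ^ j)⁻¹ * y ^ (-s) * β,
        mul_mem (mul_mem (inv_mem (pow_mem hhB _)) (zpow_mem haB _)) hβ, ?_⟩
      have e1 : y = b⁻¹ * x * b⁻¹ := by rw [← R.xdef']; group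
      have e2 : x * y ^ (-s) = b ^ (-s) * x := (R.xa.zpow_right (-s)).eq
      calc y * (b ^ (3 * c) * β) = b⁻¹ * x * b⁻¹ * (b ^ (3 * c) * β) := by rw [← e1]
        _ = b⁻¹ * x * b ^ (3 * c - 1) * β := by group
        _ = b⁻¹ * (x * y ^ (-s)) * x * (h ^ j)⁻¹ * y ^ (-s) * β := by rw [hb]; group
        _ = b ^ (-s - 1) * (x * x) * (h ^ j)⁻¹ * y ^ (-s) * β := by rw [e2]; group
        _ = _ := by rw [R.xx, hc']; group
    · refine ⟨c * n ^ 2, y * β, mul_mem hhB hβ, ?_⟩
      have e1 : b ^ (3 * c) = (b ^ (4 : ℤ)) ^ (3 * (c * n ^ 2)) := by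
        rw [← zpow_mul]
        apply R.cb
        obtain ⟨d, hd⟩ := R.four_n
        exact ⟨-(3 * c * d), by linear_combination (-(3 * c)) * hd⟩
      rw [e1, ← mul_assoc, (R.hB.zpow_right _).eq, mul_assoc]
    · exact ⟨c + 1, β, hβ, by group⟩
  have fin : ∀ y ∈ ({a, h, b ^ (3 : ℤ)} : Set Q), IsOfFinOrder y := by
    rintro y (rfl | rfl | rfl)
    · exact R.fa
    · exact R.fh
    · exact R.fb.zpow
  induction hg using Subgroup.closure_induction_left with
  | one => exact ⟨0, 1, one_mem _, by simp⟩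
  | mul_left y hy g _ ih => exact step y hy g ih
  | inv_mul_cancel y hy g _ ih =>
    exact left_inv_closed (fin y hy) (fun g => ∃ c : ℤ,
      ∃ β ∈ (zpowers a ⊔ zpowers h : Subgroup Q), g = b ^ (3 * c) * β) (step y hy) g ih

theorem iwahori_set : ((closure {a, h, b ^ (3 : ℤ)} : Subgroup Q) : Set Q) =
    (zpowers (b ^ (3 : ℤ)) : Set Q) * (zpowers a ⊔ zpowers h : Subgroup Q) := by
  apply Set.Subset.antisymm
  · intro g hg
    obtain ⟨c, β, hβ, rfl⟩ := R.iwahori g hg
    exact Set.mul_mem_mul ⟨c, by simp only [zpow_mul]⟩ hβ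
  · rintro _ ⟨u, hu, v, hv, rfl⟩
    have h1 : zpowers (b ^ (3 : ℤ)) ≤ closure {a, h, b ^ (3 : ℤ)} := by
      rw [zpowers_le]; exact subset_closure (by simp)
    have h2 : zpowers a ⊔ zpowers h ≤ closure {a, h, b ^ (3 : ℤ)} := by
      apply sup_le <;> rw [zpowers_le] <;> exact subset_closure (by simp)
    exact mul_mem (h1 hu) (h2 hv)

theorem finI : Finite (closure {a, h, b ^ (3 : ℤ)} : Subgroup Q) := by
  have h2 : ((zpowers (b ^ (3 : ℤ)) : Set Q) * (zpowers a ⊔ zpowers h : Subgroup Q)).Finite :=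
    Set.Finite.mul R.fb.zpow.finite_zpowers R.finB
  rw [← R.iwahori_set] at h2
  exact h2

theorem pI : IsPGroup 3 (closure {a, h, b ^ (3 : ℤ)} : Subgroup Q) := by
  have := R.finB
  have : Fact (Nat.Prime 3) := ⟨Nat.prime_three⟩
  obtain ⟨e, he⟩ := IsPGroup.iff_card.1 R.pB
  have h1 := Subgroup.card_mul_eq_card_subgroup_mul_card_quotient
    (zpowers a ⊔ zpowers h : Subgroup Q) (zpowers (b ^ (3 : ℤ)) : Set Q)
  have h2 : ((zpowers (b ^ (3 : ℤ)) : Set Q).image (↑) :
      Set (Q ⧸ (zpowers a ⊔ zpowers h : Subgroup Q))) =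
      MulAction.orbit (zpowers (b ^ (3 : ℤ)))
        ((1 : Q) : Q ⧸ (zpowers a ⊔ zpowers h : Subgroup Q)) := by
    ext y
    constructor
    · rintro ⟨u, hu, rfl⟩
      exact ⟨⟨u, hu⟩, congrArg QuotientGroup.mk (mul_one u)⟩
    · rintro ⟨⟨u, hu⟩, rfl⟩
      exact ⟨u, hu, congrArg QuotientGroup.mk (mul_one u).symm⟩
  have : Finite (zpowers (b ^ (3 : ℤ))) := R.fb.zpow.finite_zpowers
  have : Finite (MulAction.orbit (zpowers (b ^ (3 : ℤ)))
        ((1 : Q) : Q ⧸ (zpowers a ⊔ zpowers h : Subgroup Q))) := Set.finite_range _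
  obtain ⟨f, hf⟩ := R.pb.card_orbit ((1 : Q) : Q ⧸ (zpowers a ⊔ zpowers h : Subgroup Q))
  rw [h2, hf, he, ← R.iwahori_set, ← pow_add] at h1
  exact IsPGroup.of_card h1

/-- Bruhat decomposition modulo three. -/
theorem cosets (hgen : closure {a, b} = ⊤) (g : Q) :
    g ∈ closure {a, h, b ^ (3 : ℤ)} ∨
      ∃ t : ℤ, ∃ i ∈ closure {a, h, b ^ (3 : ℤ)}, g = a ^ t * x * i := by
  have haI : a ∈ closure {a, h, b ^ (3 : ℤ)} := subset_closure (by simp)
  have hhI : h ∈ closure {a, h, b ^ (3 : ℤ)} := subset_closure (by simp)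
  have hbI : b ^ (3 : ℤ) ∈ closure {a, h, b ^ (3 : ℤ)} := subset_closure (by simp)
  let P : Q → Prop := fun g => g ∈ closure {a, h, b ^ (3 : ℤ)} ∨
      ∃ t : ℤ, ∃ i ∈ closure {a, h, b ^ (3 : ℤ)}, g = a ^ t * x * i
  have sa : ∀ (s : ℤ) g, P g → P (a ^ s * g) := by
    rintro s g (hg | ⟨t, i, hi, rfl⟩)
    · exact Or.inl (mul_mem (zpow_mem haI s) hg)
    · exact Or.inr ⟨s + t, i, hi, by group⟩
  have sx : ∀ g, P g → P (x * g) := by
    rintro g (hg | ⟨t, i, hi, rfl⟩)
    · exact Or.inr ⟨0, g, hg, by simp⟩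
    · have e : x * (a ^ t * x * i) = b ^ t * i := by
        rw [← mul_assoc, ← mul_assoc, (R.xa.zpow_right t).eq, mul_assoc _ x x, R.xx, mul_one]
      rw [e]
      by_cases h3 : (3 : ℤ) ∣ t
      · obtain ⟨c, rfl⟩ := h3
        left
        rw [zpow_mul]
        exact mul_mem (zpow_mem hbI c) hi
      · obtain ⟨s, j, -, hb⟩ := R.bruhat t h3
        right
        exact ⟨-s, (h ^ j)⁻¹ * a ^ (-s) * i,
          mul_mem (mul_mem (inv_mem (pow_mem hhI _)) (zpow_mem haI _)) hi, by rw [hb]; group⟩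
  have hg : g ∈ closure {a, b} := hgen ▸ mem_top g
  show P g
  induction hg using Subgroup.closure_induction_left with
  | one => exact Or.inl (one_mem _)
  | mul_left y hy g _ ih =>
    rcases hy with rfl | rfl
    · simpa using sa 1 g ih
    · have : y * g = a ^ (-1 : ℤ) * (x * (a ^ (-1 : ℤ) * g)) := by rw [← R.xdef]; group
      rw [this]
      exact sa _ _ (sx _ (sa _ _ ih))
  | inv_mul_cancel y hy g _ ih =>
    rcases hy with rfl | rfl
    · simpa using sa (-1) g ih
    · have : y⁻¹ * g = a ^ (1 : ℤ) * (x * (a ^ (1 : ℤ) * g)) := by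
        rw [← R.xinv, ← R.xdef]; group
      rw [this]
      exact sa _ _ (sx _ (sa _ _ ih))

theorem finite_solvable (hgen : closure {a, b} = ⊤) : Finite Q ∧ Group.IsSolvable Q := by
  set I : Subgroup Q := closure {a, h, b ^ (3 : ℤ)} with hI
  have hbI : b ^ (3 : ℤ) ∈ I := subset_closure (by simp)
  let f : Fin 4 → Q ⧸ I := ![(1 : Q), (x : Q), (a * x : Q), (a ^ (2 : ℤ) * x : Q)]
  have hf : Function.Surjective f := by
    intro q
    obtain ⟨g, rfl⟩ := QuotientGroup.mk_surjective q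
    rcases R.cosets hgen g with hg | ⟨t, i, hi, rfl⟩
    · exact ⟨0, QuotientGroup.eq.2 (by rw [inv_one, one_mul]; exact hg)⟩
    · have key : ∀ r c : ℤ, t = r + 3 * c →
          ((a ^ r * x : Q) : Q ⧸ I) = (a ^ t * x * i : Q) := by
        rintro r c rfl
        apply QuotientGroup.eq.2
        have e : a ^ (3 * c) * x = x * b ^ (3 * c) := (R.xb.zpow_right (3 * c)).eq.symm
        have : (a ^ r * x)⁻¹ * (a ^ (r + 3 * c) * x * i) = (b ^ (3 : ℤ)) ^ c * i := by
          calc _ = x⁻¹ * (a ^ (3 * c) * x) * i := by group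
            _ = _ := by rw [e]; group
        rw [this]
        exact mul_mem (zpow_mem hbI c) hi
      have hcases : t = 0 + 3 * (t / 3) ∨ t = 1 + 3 * (t / 3) ∨ t = 2 + 3 * (t / 3) := by omega
      rcases hcases with ht | ht | ht
      · exact ⟨1, by simpa [f] using key _ _ ht⟩
      · exact ⟨2, by simpa [f] using key _ _ ht⟩
      · exact ⟨3, by simpa [f] using key _ _ ht⟩
  have : Finite (Q ⧸ I) := Finite.of_surjective f hf
  have hc : Nat.card (Q ⧸ I) ≤ 4 := by
    simpa using Nat.card_le_card_of_surjective f hf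
  have : Finite I := R.finI
  refine ⟨Finite.of_subgroup_quotient I, ?_⟩
  have : Fact (Nat.Prime 3) := ⟨Nat.prime_three⟩
  have : Group.IsNilpotent I := R.pI.isNilpotent
  have := solvable_perm_of_card_le hc
  refine Group.isSolvable_of_ker_le_range I.subtype (MulAction.toPermHom Q (Q ⧸ I)) ?_
  rw [← Subgroup.normalCore_eq_ker, Subgroup.range_subtype]
  exact Subgroup.normalCore_le I

end Rel

end Pool.Agent.MP_6b47b1_al

end MrgPart1

-- ======== part 2: formerly Pool.Agent.MP_6b47b1_al.Steps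
section MrgPart2

/-! The two-relator group is an iterated central extension of the group enumerated in `Core`. -/

set_option autoImplicit false

namespace Pool.Agent.MP_6b47b1_al

open Subgroup

theorem braid_xa {Q : Type} [Group Q] {a b : Q} (hbr : a * b * a = b * a * b) :
    SemiconjBy (a * b * a) a b := by
  show a * b * a * a = b * (a * b * a)
  calc a * b * a * a = b * a * b * a := by rw [hbr]
    _ = _ := by group

theorem braid_xb {Q : Type} [Group Q] {a b : Q} (hbr : a * b * a = b * a * b) :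
    SemiconjBy (a * b * a) b a := by
  show a * b * a * b = a * (a * b * a)
  calc a * b * a * b = a * (b * a * b) := by group
    _ = _ := by rw [hbr]

theorem conj_pow_one {Q : Type} [Group Q] {x a b : Q} (h : SemiconjBy x a b) {m : ℕ}
    (ha : a ^ m = 1) : b ^ m = 1 := by
  have := (h.pow_right m).eq
  rw [ha, mul_one] at this
  simpa using this

theorem step3 {Q : Type} [Group Q] {a b : Q} (K : ℕ) (n : ℤ) (hn : 2 * n = 3 ^ (K + 1) + 1)
    (hgen : closure {a, b} = ⊤) (hbr : a * b * a = b * a * b)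
    (hx : (a * b * a) * (a * b * a) = 1) (ha : a ^ (3 ^ (K + 1)) = 1)
    (hbr2 : a ^ (2 : ℤ) * b ^ n * a ^ (2 : ℤ) = b ^ n * a ^ (2 : ℤ) * b ^ n)
    (hw : (a ^ (2 : ℤ) * b ^ n * a ^ (2 : ℤ)) * (a ^ (2 : ℤ) * b ^ n * a ^ (2 : ℤ)) = 1) :
    Finite Q ∧ Group.IsSolvable Q := by
  have xa := braid_xa hbr
  have xb := braid_xb hbr
  have hb : b ^ (3 ^ (K + 1)) = 1 := conj_pow_one xa ha
  have wa := braid_xa hbr2
  have wb := braid_xb hbr2
  set x := a * b * a with hxdef
  set w := a ^ (2 : ℤ) * b ^ n * a ^ (2 : ℤ) with hwdef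
  have bb : (b ^ n) ^ (2 : ℤ) = b := by
    rw [← zpow_mul]
    have := zpow_congr hb (s := n * 2) (t := 1) ⟨1, by push_cast; linarith⟩
    simpa using this
  have a4 : (a ^ (2 : ℤ)) ^ (2 : ℤ) = a ^ (4 : ℤ) := by group
  have R : Rel K n a b x (w * x) :=
    { hn := hn
      ha := ha
      hb := hb
      xdef := rfl
      xdef' := hbr.symm
      xx := hx
      xa := xa
      xb := xb
      hA := by
        have h1 := wb.zpow_right 2
        rw [bb, a4] at h1
        exact h1.mul_left xa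
      hB := by
        have h1 := wa.zpow_right 2
        rw [bb, a4] at h1
        exact h1.mul_left (xb.zpow_right 4)
      xh := by
        have : (w * x)⁻¹ = x * w := by
          apply inv_eq_of_mul_eq_one_right
          calc w * x * (x * w) = w * (x * x) * w := by group
            _ = 1 := by rw [hx, mul_one, hw]
        show x * (w * x) = (w * x)⁻¹ * x
        rw [this, mul_assoc x w x]
      w2 := by rw [mul_assoc w, hx, mul_one] }
  exact R.finite_solvable hgen

theorem step2 {Q : Type} [Group Q] {a b : Q} (K : ℕ) (n : ℤ) (hn : 2 * n = 3 ^ (K + 1) + 1)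
    (hgen : closure {a, b} = ⊤) (hbr : a * b * a = b * a * b)
    (hx : (a * b * a) * (a * b * a) = 1) (ha : a ^ (3 ^ (K + 1)) = 1)
    (hu : (b ^ (4 : ℤ) * a ^ n) * (b ^ (4 : ℤ) * a ^ n) = 1) :
    Finite Q ∧ Group.IsSolvable Q := by
  have xa := braid_xa hbr
  have xb := braid_xb hbr
  have hb : b ^ (3 ^ (K + 1)) = 1 := conj_pow_one xa ha
  have bb : b ^ n * b ^ n = b := by
    rw [← zpow_add]
    have := zpow_congr hb (s := n + n) (t := 1) ⟨1, by push_cast; linarith⟩
    simpa using this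
  have hu' : (a ^ (4 : ℤ) * b ^ n) * (a ^ (4 : ℤ) * b ^ n) = 1 := by
    have h1 := (xb.zpow_right 4).mul_right (xa.zpow_right n)
    have h2 := (h1.mul_right h1).eq
    rw [hu, mul_one] at h2
    simpa using h2
  set A := a ^ (2 : ℤ) with hA
  set C := b ^ n with hC
  have a4 : a ^ (4 : ℤ) = A * A := by rw [hA]; group
  have hp : (A * C * A) * (A * C * A) = 1 := by
    rw [a4] at hu'
    calc _ = A⁻¹ * ((A * A * C) * (A * A * C)) * A := by group
      _ = 1 := by rw [hu']; group
  have hq : (C * A * C) * (C * A * C) = 1 := by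
    calc _ = C⁻¹ * ((C * C) * A * (C * C) * A) * C := by group
      _ = C⁻¹ * (a⁻¹ * ((a * b * a) * (a * b * a)) * a) * C := by
        rw [bb, hA, zpow_two]; group
      _ = 1 := by rw [hx]; group
  set t := (A * C * A) * (C * A * C) with ht
  have tinv : t⁻¹ = (C * A * C) * (A * C * A) := by
    apply inv_eq_of_mul_eq_one_right
    calc _ = (A * C * A) * ((C * A * C) * (C * A * C)) * (A * C * A) := by rw [ht]; group
      _ = 1 := by rw [hq, mul_one, hp]
  have tA : SemiconjBy A t⁻¹ t := by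
    show A * t⁻¹ = t * A
    rw [tinv, ht]; group
  have tC : SemiconjBy C t t⁻¹ := by
    show C * t = t⁻¹ * C
    rw [tinv, ht]; group
  have tA' : SemiconjBy A t t⁻¹ := by simpa using tA.inv_right
  have tC' : SemiconjBy C t⁻¹ t := by simpa using tC.inv_right
  have c1 : Commute (A * A) t := tA.mul_left tA'
  have c2 : Commute (C * C) t := tC'.mul_left tC
  have c3 : Commute t a := by
    have e : a = (A * A) ^ (n ^ 2) := by
      rw [← a4, ← zpow_mul]
      have := zpow_congr ha (s := 4 * n ^ 2) (t := 1) ⟨3 ^ (K + 1) + 2, by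
        push_cast; linear_combination (2 * n + 3 ^ (K + 1) + 1) * hn⟩
      simpa using this.symm
    rw [e]
    exact (c1.zpow_left _).symm
  have c4 : Commute t b := by rw [bb] at c2; exact c2.symm
  have tc := mem_center_of_gen hgen c3 c4
  apply central_step hgen (3 ^ (K + 1)) (by positivity)
  · intro M _ f
    rw [← map_pow, ← map_pow, ha, hb, map_one]
    exact ⟨rfl, rfl⟩
  · let π := QuotientGroup.mk' (center Q)
    have e1 : π t = 1 := (QuotientGroup.eq_one_iff t).2 tc
    have e2 := congrArg π hp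
    have e3 := congrArg π hbr
    have e4 := congrArg π hx
    have e5 := congrArg π ha
    simp only [ht, hA, hC, map_mul, map_zpow, map_pow, map_one] at e1 e2 e3 e4 e5
    refine step3 (a := π a) (b := π b) K n hn (gen_quot hgen _) e3 e4 e5 ?_ e2
    exact (mul_left_cancel (e2.trans e1.symm))

theorem step1 {G : Type} [Group G] {a b : G} (K i : ℕ) (hi : 3 ^ (K + 1) = 8 * i + 1)
    (hgen : closure {a, b} = ⊤) (hbr : a * b * a = b * a * b)
    (hr : (b ^ 4 * a ^ (4 * i + 1)) ^ 2 * a ^ (8 * i + 1) * (a * b * a) ^ 2 = 1) :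
    Finite G ∧ Group.IsSolvable G := by
  have xa := braid_xa hbr
  have xb := braid_xb hbr
  have za : Commute ((a * b * a) ^ 2) a := by rw [sq]; exact xb.mul_left xa
  have zb : Commute ((a * b * a) ^ 2) b := by rw [sq]; exact xa.mul_left xb
  have zc := mem_center_of_gen hgen za zb
  set z := (a * b * a) ^ 2 with hz
  set c := a ^ (8 * i + 1) with hc
  set u := b ^ 4 * a ^ (4 * i + 1) with hu
  have zcomm : ∀ g : G, Commute g z := fun g => Subgroup.mem_center_iff.1 zc g
  have ce : c = (u ^ 2)⁻¹ * z⁻¹ := by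
    calc c = (u ^ 2)⁻¹ * (u ^ 2 * c * z) * z⁻¹ := by group
      _ = _ := by rw [hr]; group
  have cu : Commute c u := by
    rw [ce]
    exact Commute.mul_left ((Commute.refl u).pow_left 2).inv_left (zcomm u).symm.inv_left
  have ca : Commute c a := (Commute.refl a).pow_left _
  have cb4 : Commute c (b ^ 4) := by
    have : b ^ 4 = u * (a ^ (4 * i + 1))⁻¹ := by rw [hu]; group
    rw [this]
    exact cu.mul_right (ca.pow_right _).inv_right
  have hr' : (a ^ 4 * b ^ (4 * i + 1)) ^ 2 * b ^ (8 * i + 1) * z = 1 := by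
    have h1 := (((xb.pow_right 4).mul_right (xa.pow_right (4 * i + 1))).pow_right 2).mul_right
      (xa.pow_right (8 * i + 1))
    have h2 := (h1.mul_right (zcomm (a * b * a))).eq
    rw [← hu, ← hc, hr, mul_one] at h2
    simpa using h2
  have e1 : b * a ^ 4 = a⁻¹ * b ^ 4 * a * b := by
    have h1 : SemiconjBy (a * b) a b := by
      show a * b * a = b * (a * b)
      rw [hbr, mul_assoc]
    have h2 := (h1.pow_right 4).eq
    calc b * a ^ 4 = a⁻¹ * (a * b * a ^ 4) := by group
      _ = _ := by rw [h2]; group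
  have cb : Commute c b := by
    have e2 : b = (b ^ 4) ^ (3 * i + 1) * z * (a ^ 4 * (b ^ 4) ^ i * (a⁻¹ * b ^ 4 * a)) := by
      have e3 : a ^ 4 * (b ^ 4) ^ i * (a⁻¹ * b ^ 4 * a) * (b ^ (12 * i + 3) * z) = 1 := by
        calc _ = a ^ 4 * (b ^ 4) ^ i * (a⁻¹ * b ^ 4 * a * b) * b ^ (12 * i + 2) * z := by group
          _ = a ^ 4 * (b ^ 4) ^ i * (b * a ^ 4) * b ^ (12 * i + 2) * z := by rw [← e1]
          _ = (a ^ 4 * b ^ (4 * i + 1)) ^ 2 * b ^ (8 * i + 1) * z := by rw [sq]; group
          _ = 1 := hr'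
      have e4 : a ^ 4 * (b ^ 4) ^ i * (a⁻¹ * b ^ 4 * a) = (b ^ (12 * i + 3) * z)⁻¹ :=
        eq_inv_of_mul_eq_one_left e3
      rw [e4, mul_inv_rev]
      group
    have : Commute c ((b ^ 4) ^ (3 * i + 1) * z * (a ^ 4 * (b ^ 4) ^ i * (a⁻¹ * b ^ 4 * a))) :=
      ((cb4.pow_right _).mul_right (zcomm c)).mul_right
        (((ca.pow_right 4).mul_right (cb4.pow_right i)).mul_right
          ((ca.inv_right.mul_right cb4).mul_right ca))
    rwa [← e2] at this
  have cc := mem_center_of_gen hgen ca cb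
  apply central_step hgen (16 * i + 17) (by positivity)
  · intro M _ f
    have e3 := congrArg f hbr
    have e4 := congrArg f hr
    simp only [hz, hc, hu, map_mul, map_pow, map_one] at e3 e4
    have e5 : f a = f b := by
      have : f a * (f a * f b) = f b * (f a * f b) := by
        calc _ = f a * f b * f a := by rw [mul_assoc, mul_comm (f b)]
          _ = _ := by rw [e3, mul_assoc]
      exact mul_right_cancel this
    rw [← e5] at e4 ⊢
    have : f a ^ (16 * i + 17) = 1 := by rw [← e4, sq (f a * f a * f a)]; group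
    exact ⟨this, this⟩
  · let π := QuotientGroup.mk' (center G)
    have e1 : π z = 1 := (QuotientGroup.eq_one_iff z).2 zc
    have e2 : π c = 1 := (QuotientGroup.eq_one_iff c).2 cc
    have e3 := congrArg π hbr
    have e4 := congrArg π hr
    rw [map_mul, map_mul, e1, e2, mul_one, mul_one] at e4
    simp only [hz, hc, hu, map_mul, map_pow, map_one] at e1 e2 e3 e4
    refine step2 (a := π a) (b := π b) K (4 * i + 1) ?_ (gen_quot hgen _) e3 ?_ ?_ ?_
    · have : (3 : ℤ) ^ (K + 1) = 8 * i + 1 := by exact_mod_cast hi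
      rw [this]; ring
    · rw [← sq]; exact e1
    · rw [hi]; exact e2
    · rw [← sq]
      exact_mod_cast e4

end Pool.Agent.MP_6b47b1_al

end MrgPart2

-- ======== part 3: formerly Pool.Agent.MP_6b47b1_al.Derived
section MrgPart3

/-! Lower bound for the derived length of a group mapping onto the elementary matrices of
`SL(2, R)` when `3` is nilpotent in `R`. -/

set_option autoImplicit false

namespace Pool.Agent.MP_6b47b1_al

open Subgroup Matrix MatrixGroups

variable {R : Type} [CommRing R]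

/-- Upper unitriangular matrix. -/
def up (t : R) : SL(2, R) := ⟨!![1, t; 0, 1], by simp [det_fin_two]⟩

/-- Lower unitriangular matrix. -/
def lo (t : R) : SL(2, R) := ⟨!![1, 0; t, 1], by simp [det_fin_two]⟩

/-- Diagonal matrix. -/
def dg (u v : R) (h : u * v = 1) : SL(2, R) := ⟨!![u, 0; 0, v], by simp [det_fin_two, h]⟩

theorem up_mul (s t : R) : up s * up t = up (s + t) := by
  ext i j; fin_cases i <;> fin_cases j <;> simp [up, add_comm]

theorem lo_mul (s t : R) : lo s * lo t = lo (s + t) := by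
  ext i j; fin_cases i <;> fin_cases j <;> simp [lo]

theorem up_zero : up (0 : R) = 1 := by
  ext i j; fin_cases i <;> fin_cases j <;> simp [up]

theorem lo_zero : lo (0 : R) = 1 := by
  ext i j; fin_cases i <;> fin_cases j <;> simp [lo]

theorem up_inv (s : R) : (up s)⁻¹ = up (-s) :=
  inv_eq_of_mul_eq_one_right (by rw [up_mul, add_neg_cancel, up_zero])

theorem up_pow (s : R) (k : ℕ) : up s ^ k = up (k * s) := by
  induction k with
  | zero => simp [up_zero]
  | succ k ih => rw [pow_succ, ih, up_mul]; congr 1; push_cast; ring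

theorem lo_pow (s : R) (k : ℕ) : lo s ^ k = lo (k * s) := by
  induction k with
  | zero => simp [lo_zero]
  | succ k ih => rw [pow_succ, ih, lo_mul]; congr 1; push_cast; ring

theorem braid_mat : up (1 : R) * lo (-1) * up 1 = lo (-1) * up 1 * lo (-1) := by
  ext i j; fin_cases i <;> fin_cases j <;> simp [up, lo]

theorem conj_up (s : R) :
    (up (1 : R) * lo (-1) * up 1) * up s = lo (-s) * (up (1 : R) * lo (-1) * up 1) := by
  ext i j; fin_cases i <;> fin_cases j <;> simp [up, lo]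

theorem rel_mat (n : R) (hn : 2 * n = 1) :
    (lo (-4 : R) * up n) ^ 2 * (up (1 : R) * lo (-1) * up 1) ^ 2 = 1 := by
  rw [sq, sq]
  ext i j; fin_cases i <;> fin_cases j <;> simp [up, lo]
  · linear_combination (2 : R) * hn
  · linear_combination (2 * n) * hn
  · linear_combination (-8 : R) * hn
  · linear_combination (2 - 8 * n) * hn

theorem dg_eq (e v : R) (h : v * (1 + e) = 1) :
    dg v (1 + e) h = up (e * v) * (up (-1) * lo e * (up (-1))⁻¹) * lo (-(e * v)) := by
  rw [up_inv]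
  ext i j; fin_cases i <;> fin_cases j <;> simp [up, lo, dg]
  · linear_combination (1 - e + e ^ 2 * v) * h
  · linear_combination (-e) * h
  · linear_combination e * h
  · ring

theorem dg_conj (u v s : R) (h : v * u = 1) :
    (dg v u h)⁻¹ * up s * dg v u h = up (u ^ 2 * s) := by
  rw [mul_assoc, inv_mul_eq_iff_eq_mul]
  ext i j; fin_cases i <;> fin_cases j <;> simp [up, dg]
  linear_combination (-(s * u)) * h

theorem up_mem_derived {G : Type} [Group G] (f : G →* SL(2, R)) {a b : G} (ha : f a = up 1)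
    (hb : f b = lo (-1)) (h3 : IsNilpotent (3 : R)) (hnat : ∀ t : R, ∃ k : ℕ, (k : R) = t)
    (i : ℕ) : ∀ t : R, up (3 ^ (2 ^ i) * t) ∈ (derivedSeries G i).map f := by
  induction i with
  | zero =>
    intro t
    obtain ⟨k, hk⟩ := hnat (3 ^ (2 ^ 0) * t)
    exact ⟨a ^ k, mem_top _, by rw [map_pow, ha, up_pow, mul_one, hk]⟩
  | succ i ih =>
    intro t
    set N := (derivedSeries G i).map f with hN
    set e : R := 3 ^ (2 ^ i) with he
    have hconj : ∀ g : G, ∀ y ∈ N, f g * y * (f g)⁻¹ ∈ N := by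
      rintro g _ ⟨y, hy, rfl⟩
      exact ⟨g * y * g⁻¹, (derivedSeries_normal G i).conj_mem y hy g, by simp⟩
    have hlo : ∀ t : R, lo (e * t) ∈ N := by
      intro t
      have := hconj (a * b * a) _ (ih (-t))
      rw [map_mul, map_mul, ha, hb, conj_up, mul_inv_cancel_right] at this
      simpa using this
    have he3 : ∃ c : R, e = 3 * c := ⟨3 ^ (2 ^ i - 1), by
      rw [he, ← pow_succ', Nat.sub_add_cancel Nat.one_le_two_pow]⟩
    obtain ⟨c, hc⟩ := he3
    have hnil : IsNilpotent e := by rw [hc]; exact (Commute.all _ _).isNilpotent_mul_right h3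
    have hnil' : IsNilpotent (-(3 + e)) := ((Commute.all _ _).isNilpotent_add h3 hnil).neg
    obtain ⟨v, hv⟩ := hnil.isUnit_one_add.exists_left_inv
    obtain ⟨v', hv'⟩ := hnil'.isUnit_one_add.exists_left_inv
    have hD : dg v (1 + e) hv ∈ N := by
      rw [dg_eq]
      refine mul_mem (mul_mem (ih v) ?_) (by simpa using hlo (-v))
      have := hconj a⁻¹ _ (hlo 1)
      rwa [map_inv, ha, up_inv, mul_one] at this
    have hcomm := commutator_mem_commutator (inv_mem hD) (ih (-(v' * t)))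
    rw [derivedSeries_succ, Subgroup.map_commutator]
    convert hcomm using 1
    rw [commutatorElement_def, inv_inv, dg_conj, up_inv, up_mul]
    congr 1
    rw [pow_succ 2 i, pow_mul, ← he]
    linear_combination (-(e ^ 2 * t)) * hv'

end Pool.Agent.MP_6b47b1_al

end MrgPart3

-- marker of a merged file
example : 731051 + 876491 = 731051 + 876491 := rfl
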