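import Pool.Agent.MP_6b47b1_al.Derived

/-! Finite 3-groups of deficiency zero: general lemmas (geometric sums, levels modulo a
normalised subgroup, products of finite 3-groups). -/

set_option autoImplicit false

namespace Pool.Agent.MP_6b47b1_al.T3

open Subgroup Pointwise

/-- The geometric sum `1 + (-2) + ... + (-2)^(i-1)`. -/
def S : ℕ → ℤ
  | 0 => 0
  | i + 1 => S i + (-2) ^ i

theorem S_eq (i : ℕ) : (-2 : ℤ) ^ i = 1 - 3 * S i := by
  induction i with
  | zero => simp [S]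
  | succ i ih => rw [pow_succ, S, ih]; ring

theorem S_mod (i : ℕ) : ∃ j : ℤ, S i = i + 3 * j := by
  induction i with
  | zero => exact ⟨0, by simp [S]⟩
  | succ i ih =>
    obtain ⟨j, hj⟩ := ih
    refine ⟨j - S i, ?_⟩
    rw [S, S_eq, hj]; push_cast; ring

theorem S_three_pow (i : ℕ) : ∃ w : ℤ, S (3 ^ i) = 3 ^ i * w := by
  obtain ⟨w, hw⟩ := two_pow_three_pow i
  refine ⟨1 + 3 * w, ?_⟩
  have h1 := S_eq (3 ^ i)
  have h2 : Odd (3 ^ i) := Odd.pow (by decide)
  rw [h2.neg_pow, hw] at h1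
  have : 3 * S (3 ^ i) = 3 * (3 ^ i * (1 + 3 * w)) := by linear_combination h1
  exact mul_left_cancel₀ (by norm_num) this

theorem exists_S (r : ℕ) (s : ℤ) : ∃ i : ℕ, (3 : ℤ) ^ r ∣ s - S i := by
  obtain ⟨j, c, hc⟩ := exists_four_pow r (1 - 3 * s) ⟨-s, by ring⟩
  refine ⟨2 * j, -c, ?_⟩
  have h1 := S_eq (2 * j)
  rw [pow_mul] at h1
  norm_num at h1
  have : 3 * (s - S (2 * j)) = 3 * (3 ^ r * -c) := by linear_combination (-1 : ℤ) * hc - h1
  exact mul_left_cancel₀ (by norm_num) this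

variable {G : Type} [Group G]

theorem conj_one {a e : G} (h : e * a = a ^ (-2 : ℤ) * e) (s : ℤ) :
    e * a ^ s = a ^ (-2 * s) * e := by
  have h1 : SemiconjBy e a (a ^ (-2 : ℤ)) := h
  rw [(h1.zpow_right s).eq, ← zpow_mul]

theorem conj_nat {a e : G} (h : e * a = a ^ (-2 : ℤ) * e) (i : ℕ) (s : ℤ) :
    e ^ i * a ^ s = a ^ (s * (-2) ^ i) * e ^ i := by
  induction i with
  | zero => simp
  | succ i ih =>
    rw [pow_succ' e, mul_assoc, ih, ← mul_assoc, conj_one h, mul_assoc]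
    congr 2; ring

theorem geom {a e : G} (h : e * a = a ^ (-2 : ℤ) * e) (i : ℕ) (s : ℤ) :
    (a ^ s * e) ^ i = a ^ (s * S i) * e ^ i := by
  induction i with
  | zero => simp [S]
  | succ i ih =>
    rw [pow_succ, ih, S]
    calc a ^ (s * S i) * e ^ i * (a ^ s * e) = a ^ (s * S i) * (e ^ i * a ^ s) * e := by group
      _ = _ := by rw [conj_nat h, mul_add, zpow_add, pow_succ]; group

/-- `g` lies in the coset `N t^j`. -/
def Lv (N : Subgroup G) (t g : G) (j : ℤ) : Prop := g * t ^ (-j) ∈ N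

section Level

variable {N : Subgroup G} {t : G}

theorem norm_zpow (ht : t ∈ normalizer (N : Set G)) (i : ℤ) {g : G} (hg : g ∈ N) :
    t ^ i * g * t ^ (-i) ∈ N := by
  have := (mem_normalizer_iff.1 (zpow_mem ht i) g).1 hg
  rwa [← zpow_neg] at this

theorem Lv.of_mem {g : G} (hg : g ∈ N) : Lv N t g 0 := by simpa [Lv] using hg

theorem Lv.self : Lv N t t 1 := by simp [Lv]

theorem Lv.mul (ht : t ∈ normalizer (N : Set G)) {g h : G} {i j : ℤ} (hg : Lv N t g i)
    (hh : Lv N t h j) : Lv N t (g * h) (i + j) := by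
  have := mul_mem hg (norm_zpow ht i hh)
  unfold Lv
  convert this using 1
  group

theorem Lv.inv (ht : t ∈ normalizer (N : Set G)) {g : G} {i : ℤ} (hg : Lv N t g i) :
    Lv N t g⁻¹ (-i) := by
  have := norm_zpow ht (-i) (inv_mem hg)
  unfold Lv
  convert this using 1
  group

theorem Lv.pow (ht : t ∈ normalizer (N : Set G)) {g : G} {i : ℤ} (hg : Lv N t g i) (n : ℕ) :
    Lv N t (g ^ n) (n * i) := by
  induction n with
  | zero => simpa using Lv.of_mem (one_mem N)
  | succ n ih =>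
    have := ih.mul ht hg
    rw [← pow_succ] at this
    convert this using 1
    push_cast; ring

theorem Lv.uniq {g : G} {i j : ℤ} (hi : Lv N t g i) (hj : Lv N t g j) : t ^ (i - j) ∈ N := by
  have := mul_mem (inv_mem hi) hj
  convert this using 1
  group

theorem Lv.mem {g : G} {i : ℤ} (hi : Lv N t g i) (h : t ^ i ∈ N) : g ∈ N := by
  have := mul_mem hi h
  convert this using 1
  group

end Level

theorem zp_group {u : G} {i : ℕ} (hu : u ^ 3 ^ i = 1) : IsPGroup 3 (zpowers u) := by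
  apply IsPGroup.of_card_dvd_pow (n := i)
  rw [Nat.card_zpowers]
  exact orderOf_dvd_of_pow_eq_one hu

theorem fin_ord {u : G} {n : ℕ} (hn : 0 < n) (hu : u ^ n = 1) : IsOfFinOrder u :=
  isOfFinOrder_iff_pow_eq_one.2 ⟨_, hn, hu⟩

theorem norm_of_conj {u v : G} (hu : IsOfFinOrder u) (h : v * u * v⁻¹ ∈ zpowers u) :
    v ∈ normalizer (zpowers u : Set G) := by
  have : Finite (zpowers u) := hu.finite_zpowers
  apply Subgroup.mem_normalizer_fintype
  rintro _ ⟨s, rfl⟩
  have := zpow_mem h s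
  rwa [conj_zpow] at this

/-- A metacyclic join of two cyclic 3-groups. -/
theorem sup_group {u v : G} {i j : ℕ} (hu : u ^ 3 ^ i = 1) (hv : v ^ 3 ^ j = 1)
    (h : v ∈ normalizer (zpowers u : Set G)) :
    Finite (zpowers u ⊔ zpowers v : Subgroup G) ∧
      IsPGroup 3 (zpowers u ⊔ zpowers v : Subgroup G) := by
  have hn : zpowers v ≤ normalizer (zpowers u : Set G) := by rwa [zpowers_le]
  refine ⟨?_, IsPGroup.to_sup_of_normal_left' (zp_group hu) (zp_group hv) hn⟩
  have h1 : ((zpowers v ⊔ zpowers u : Subgroup G) : Set G) = (zpowers v : Set G) * zpowers u :=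
    coe_mul_of_left_le_normalizer_right _ _ hn
  have h2 : ((zpowers v : Set G) * zpowers u).Finite :=
    Set.Finite.mul (fin_ord (by positivity) hv).finite_zpowers
      (fin_ord (by positivity) hu).finite_zpowers
  rw [sup_comm]
  rw [← h1] at h2
  exact h2

/-- Every element of the join has a level. -/
theorem sup_level {u v : G} (h : v ∈ normalizer (zpowers u : Set G)) {g : G}
    (hg : g ∈ (zpowers u ⊔ zpowers v : Subgroup G)) : ∃ j : ℤ, Lv (zpowers u) v g j := by
  have hn : zpowers v ≤ normalizer (zpowers u : Set G) := by rwa [zpowers_le]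
  have h1 : ((zpowers v ⊔ zpowers u : Subgroup G) : Set G) = (zpowers v : Set G) * zpowers u :=
    coe_mul_of_left_le_normalizer_right _ _ hn
  rw [sup_comm] at hg
  have hg' : g ∈ (zpowers v : Set G) * zpowers u := h1 ▸ hg
  obtain ⟨_, ⟨j, rfl⟩, y, hy, rfl⟩ := hg'
  exact ⟨j, norm_zpow h j hy⟩

/-- A group which is the product of a cyclic 3-group and a finite 3-subgroup. -/
theorem prod_group {u : G} {i : ℕ} (hu : u ^ 3 ^ i = 1) (H : Subgroup G) (hf : Finite H)
    (hp : IsPGroup 3 H) (h : ∀ g : G, ∃ s : ℤ, ∃ y ∈ H, g = u ^ s * y) :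
    Finite G ∧ IsPGroup 3 G := by
  have : Fact (Nat.Prime 3) := ⟨Nat.prime_three⟩
  have : Finite (zpowers u) := (fin_ord (by positivity) hu).finite_zpowers
  have horb : MulAction.orbit (zpowers u) ((1 : G) : G ⧸ H) = Set.univ := by
    rw [Set.eq_univ_iff_forall]
    intro q
    obtain ⟨g, rfl⟩ := QuotientGroup.mk_surjective q
    obtain ⟨s, y, hy, rfl⟩ := h g
    refine ⟨⟨u ^ s, s, rfl⟩, ?_⟩
    show ((u ^ s * 1 : G) : G ⧸ H) = _
    exact QuotientGroup.eq.2 (by simpa using hy)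
  have hfo : Finite (MulAction.orbit (zpowers u) ((1 : G) : G ⧸ H)) := Set.finite_range _
  obtain ⟨f, hf'⟩ := (zp_group hu).card_orbit ((1 : G) : G ⧸ H)
  rw [horb] at hfo hf'
  have : Finite (G ⧸ H) := Set.finite_univ_iff.1 hfo
  obtain ⟨e, he⟩ := IsPGroup.iff_card.1 hp
  refine ⟨Finite.of_subgroup_quotient H, IsPGroup.of_card (n := f + e) ?_⟩
  rw [Subgroup.card_eq_card_quotient_mul_card_subgroup H, he, pow_add, ← hf']
  simp

/-- An extension of finite 3-groups. -/
theorem ext_group (N : Subgroup G) [N.Normal] (hf : Finite N) (hp : IsPGroup 3 N)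
    (h : Finite (G ⧸ N) ∧ IsPGroup 3 (G ⧸ N)) : Finite G ∧ IsPGroup 3 G := by
  obtain ⟨h1, h2⟩ := h
  refine ⟨Finite.of_subgroup_quotient N, fun g => ?_⟩
  obtain ⟨i, hi⟩ := h2 (g : G ⧸ N)
  have hg : g ^ 3 ^ i ∈ N := (QuotientGroup.eq_one_iff _).1 (by simpa using hi)
  obtain ⟨j, hj⟩ := hp ⟨_, hg⟩
  refine ⟨i + j, ?_⟩
  rw [pow_add, pow_mul]
  exact congrArg Subtype.val hj

theorem gen3_quot {a e x : G} (hgen : closure {a, e, x} = ⊤) (N : Subgroup G) [N.Normal] :
    closure {(a : G ⧸ N), (e : G ⧸ N), (x : G ⧸ N)} = ⊤ := by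
  have := congrArg (Subgroup.map (QuotientGroup.mk' N)) hgen
  rw [MonoidHom.map_closure, Subgroup.map_top_of_surjective _ (QuotientGroup.mk'_surjective N),
    Set.image_insert_eq, Set.image_pair] at this
  exact this

end Pool.Agent.MP_6b47b1_al.T3
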