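import Pool.Agent.MP_6b47b1_al.T3a

/-! Finite 3-groups of deficiency zero: the quotient group with relations
`d a d⁻¹ = a⁻²`, `a^(3^r) = d^(3^j) = x^3 = 1`, `x (a d) x⁻¹ = a d⁻¹` is a finite 3-group. -/

set_option autoImplicit false

namespace Pool.Agent.MP_6b47b1_al.T3

open Subgroup Pointwise

theorem cop (r : ℕ) (u : ℤ) : IsCoprime ((3 : ℤ) ^ r) (1 - 3 * u) :=
  IsCoprime.pow_left ⟨u, 1, by ring⟩

theorem exists_sol (r : ℕ) (s u : ℤ) : ∃ s' : ℤ, (3 : ℤ) ^ r ∣ s' * (1 - 3 * u) - s := by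
  obtain ⟨α, β, h⟩ := cop r u
  exact ⟨s * β, -(s * α), by linear_combination s * h⟩

theorem odd_pow_sub {n : ℕ} (hn : 0 < n) : ∃ c : ℤ, (-2 : ℤ) ^ n - 1 = 2 * c + 1 := by
  obtain ⟨n, rfl⟩ := Nat.exists_eq_add_of_lt hn
  exact ⟨-(-2) ^ (0 + n) - 1, by ring⟩

variable {Q : Type} [Group Q]

/-- The relations of the quotient group, in the generators `a`, `d`, `b = a⁻¹ x`. -/
structure RelQ (r j : ℕ) (a d b : Q) : Prop where
  hda : d * a = a ^ (-2 : ℤ) * d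
  ha : a ^ 3 ^ r = 1
  hd : d ^ 3 ^ j = 1
  hx : (a * b) ^ 3 = 1
  hab : a * b = d * b * a * d

namespace RelQ

variable {r j : ℕ} {a d b : Q} (R : RelQ r j a d b)
include R

theorem ca {s t : ℤ} (hst : (3 : ℤ) ^ r ∣ s - t) : a ^ s = a ^ t :=
  zpow_congr R.ha (by exact_mod_cast hst)

theorem hdb : d⁻¹ * b = b ^ (-2 : ℤ) * d⁻¹ := by
  obtain ⟨x, hx⟩ : ∃ x, x = a * b := ⟨_, rfl⟩
  have hb : b = a⁻¹ * x := by rw [hx]; group
  have h3 : x ^ 3 = 1 := hx ▸ R.hx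
  have e0 : d⁻¹ * a⁻¹ = a * d⁻¹ * a := by
    calc d⁻¹ * a⁻¹ = d⁻¹ * (a ^ (-2 : ℤ) * d) * d⁻¹ * a := by group
      _ = _ := by rw [← R.hda]; group
  have e1 : x = d * a⁻¹ * x * a * d := by
    calc x = a * b := hx
      _ = d * b * a * d := R.hab
      _ = _ := by rw [hb]; group
  have e2 : d * a⁻¹ = a ^ (2 : ℤ) * d := by simpa using conj_one R.hda (-1)
  have e3 : x * (a * d) * x⁻¹ = a * d⁻¹ := by
    calc x * (a * d) * x⁻¹ = a * d⁻¹ * (d * a⁻¹ * x * a * d) * x⁻¹ := by group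
      _ = _ := by rw [← e1]; group
  have e4 : x⁻¹ * a = a * d * x⁻¹ * d := by
    calc x⁻¹ * a = x⁻¹ * (a * d⁻¹) * d := by group
      _ = _ := by rw [← e3]; group
  have e5 : (a * d)⁻¹ * x⁻¹ = x⁻¹ * (d * a⁻¹) := by
    calc (a * d)⁻¹ * x⁻¹ = x⁻¹ * (x * (a * d) * x⁻¹)⁻¹ := by group
      _ = _ := by rw [e3]; group
  have e6 : x = x⁻¹ * x⁻¹ := by
    calc x = x⁻¹ * x⁻¹ * x ^ 3 := by group
      _ = _ := by rw [h3, mul_one]
  have e7 : d⁻¹ * b * d = x⁻¹ * (a ^ (2 : ℤ) * d) * x⁻¹ * d := by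
    calc d⁻¹ * b * d = (a * d)⁻¹ * x * d := by rw [hb]; group
      _ = (a * d)⁻¹ * (x⁻¹ * x⁻¹) * d := by rw [← e6]
      _ = ((a * d)⁻¹ * x⁻¹) * x⁻¹ * d := by group
      _ = _ := by rw [e5, e2]
  have e8 : b ^ (-2 : ℤ) = x⁻¹ * (a ^ (2 : ℤ) * d) * x⁻¹ * d := by
    calc b ^ (-2 : ℤ) = x⁻¹ * a * (x⁻¹ * a) := by
          rw [hb, zpow_neg, zpow_two]; group
      _ = x⁻¹ * a * (a * d * x⁻¹ * d) := by rw [← e4]
      _ = _ := by rw [zpow_two]; group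
  rw [e8, ← e7]; group

theorem fb : IsOfFinOrder b := by
  have h := conj_nat R.hdb (3 ^ j) 1
  rw [inv_pow, R.hd] at h
  obtain ⟨c, hc⟩ := odd_pow_sub (n := 3 ^ j) (by positivity)
  refine isOfFinOrder_iff_zpow_eq_one.2 ⟨(-2) ^ 3 ^ j - 1, by omega, ?_⟩
  simp only [inv_one, one_mul, mul_one, zpow_one] at h
  rw [zpow_sub, ← h]; simp

theorem d_norm : d ∈ normalizer (zpowers b : Set Q) := by
  have : d⁻¹ ∈ normalizer (zpowers b : Set Q) :=
    norm_of_conj R.fb ⟨-2, by rw [R.hdb]; group⟩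
  simpa using inv_mem this

theorem claimA (i : ℕ) : ∃ h ∈ (zpowers b ⊔ zpowers d : Subgroup Q),
    a ^ S i * b = h * ((d ^ i)⁻¹ * a ^ S i * d ^ i) := by
  have hb : b ∈ (zpowers b ⊔ zpowers d : Subgroup Q) := mem_sup_left (mem_zpowers b)
  have hd : d ∈ (zpowers b ⊔ zpowers d : Subgroup Q) := mem_sup_right (mem_zpowers d)
  induction i with
  | zero => exact ⟨b, hb, by simp [S]⟩
  | succ i ih =>
    obtain ⟨h, hh, e⟩ := ih
    refine ⟨d * h * d, mul_mem (mul_mem hd hh) hd, ?_⟩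
    have e1 : S (i + 1) = -2 * S i + 1 := by rw [S, S_eq]; ring
    have e2 : d ^ i * a = a ^ (-2 : ℤ) ^ i * d ^ i := by simpa using conj_nat R.hda i 1
    calc a ^ S (i + 1) * b = a ^ (-2 * S i) * (a * b) := by rw [e1]; group
      _ = (a ^ (-2 * S i) * d) * b * a * d := by rw [R.hab]; group
      _ = d * (a ^ S i * b) * a * d := by rw [← conj_one R.hda]; group
      _ = d * h * (d ^ i)⁻¹ * a ^ S i * (d ^ i * a) * d := by rw [e]; group
      _ = _ := by rw [e2, S, zpow_add, pow_succ]; group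

theorem claimB {s s1 : ℤ} (hs : (3 : ℤ) ^ r ∣ s1 * (1 - 3 * s) - s) :
    ∃ h ∈ (zpowers b ⊔ zpowers d : Subgroup Q), a ^ s * b = h * a ^ s1 := by
  obtain ⟨i, hi⟩ := exists_S r s
  obtain ⟨h, hh, e⟩ := R.claimA i
  refine ⟨h, hh, ?_⟩
  have e1 : a ^ (s1 * (-2) ^ i) = a ^ S i := by
    apply R.ca
    have := dvd_add hs (hi.mul_left (3 * s1 + 1))
    have e3 : s1 * (-2) ^ i - S i = s1 * (1 - 3 * s) - s + (3 * s1 + 1) * (s - S i) := by
      rw [S_eq]; ring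
    rwa [e3]
  rw [R.ca hi, e, mul_assoc, ← e1, ← conj_nat R.hda]
  group

theorem claimC (t : ℕ) : ∀ s s' : ℤ, (3 : ℤ) ^ r ∣ s' * (1 - 3 * (s * t)) - s →
    ∃ h ∈ (zpowers b ⊔ zpowers d : Subgroup Q), a ^ s * b ^ t = h * a ^ s' := by
  induction t with
  | zero =>
    intro s s' hs
    refine ⟨1, one_mem _, ?_⟩
    rw [R.ca (s := s') (t := s) (by simpa using hs)]
    simp
  | succ t ih =>
    intro s s' hs
    obtain ⟨s2, h2⟩ := exists_sol r s (s * t)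
    obtain ⟨h, hh, e⟩ := ih s s2 h2
    have h3 : (3 : ℤ) ^ r ∣ s' * (1 - 3 * s2) - s2 := by
      apply (cop r (s * t)).dvd_of_dvd_mul_left
      have := dvd_sub hs (h2.mul_left (3 * s' + 1))
      convert this using 1
      push_cast; ring
    obtain ⟨h', hh', e'⟩ := R.claimB h3
    exact ⟨h * h', mul_mem hh hh', by rw [pow_succ, ← mul_assoc, e, mul_assoc, e', mul_assoc]⟩

theorem hb : b ^ 3 ^ (r + j + 1) = 1 := by
  obtain ⟨h, hh, e⟩ := R.claimC (3 ^ r) 1 1 ⟨-3, by push_cast; ring⟩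
  obtain ⟨l, hl⟩ := sup_level R.d_norm hh
  have h1 : h ^ 3 ^ j ∈ zpowers b := by
    apply (hl.pow R.d_norm (3 ^ j)).mem
    rw [zpow_mul, zpow_natCast, R.hd, one_zpow]
    exact one_mem _
  obtain ⟨n, hn⟩ := h1
  simp only [] at hn
  have e1 : a * b ^ ((3 ^ (r + j) : ℕ) : ℤ) = b ^ n * a := by
    have : h = a * b ^ 3 ^ r * a⁻¹ := by
      calc h = h * a ^ (1 : ℤ) * a⁻¹ := by group
        _ = _ := by rw [← e]; group
    rw [hn, this, conj_pow, zpow_natCast, pow_add, pow_mul]; group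
  set T : ℤ := ((3 ^ (r + j) : ℕ) : ℤ) with hT
  have s1 : SemiconjBy a (b ^ T) (b ^ n) := e1
  have s2 : SemiconjBy (b * a) (b ^ T) (b ^ n) :=
    SemiconjBy.mul_left ((Commute.refl b).zpow_right n) s1
  have s3 : SemiconjBy d⁻¹ (b ^ T) (b ^ (-2 * T)) := conj_one R.hdb T
  have s4 : SemiconjBy (a * b) (b ^ (-2 * T)) (b ^ (-2 * n)) := by
    have := s1.zpow_right (-2)
    rw [← zpow_mul, ← zpow_mul, mul_comm T, mul_comm n] at this
    exact SemiconjBy.mul_left this ((Commute.refl b).zpow_right _)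
  have s5 : SemiconjBy d⁻¹ (b ^ (-2 * n)) (b ^ (-2 * (-2 * n))) := conj_one R.hdb _
  have s6 := SemiconjBy.mul_left s5 (SemiconjBy.mul_left s4 s3)
  have e2 : d⁻¹ * (a * b * d⁻¹) = b * a := by rw [R.hab]; group
  rw [e2] at s6
  have e3 : b ^ n = b ^ (-2 * (-2 * n)) := mul_right_cancel (s2.eq.symm.trans s6.eq)
  have e4 : (b ^ n) ^ 3 = 1 := by
    calc (b ^ n) ^ 3 = b ^ (-2 * (-2 * n)) * (b ^ n)⁻¹ := by group
      _ = 1 := by rw [← e3]; group
  have e5 := (s1.pow_right 3).eq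
  rw [e4, one_mul, hT, zpow_natCast, ← pow_mul, ← pow_succ] at e5
  simpa using e5

theorem group (hgen : closure {a, a * d, a * b} = ⊤) : Finite Q ∧ IsPGroup 3 Q := by
  obtain ⟨hf, hp⟩ := sup_group R.hb R.hd R.d_norm
  set H : Subgroup Q := zpowers b ⊔ zpowers d with hH
  have hd : d ∈ H := mem_sup_right (mem_zpowers d)
  let P : Q → Prop := fun g => ∃ s : ℤ, ∃ y ∈ H, g = a ^ s * y
  have pa : ∀ g, P g → P (a * g) := by
    rintro _ ⟨s, y, hy, rfl⟩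
    exact ⟨s + 1, y, hy, by group⟩
  have pd : ∀ g, P g → P (d * g) := by
    rintro _ ⟨s, y, hy, rfl⟩
    exact ⟨-2 * s, d * y, mul_mem hd hy, by rw [← mul_assoc, conj_one R.hda, mul_assoc]⟩
  have pb : ∀ g, P g → P (b⁻¹ * g) := by
    rintro _ ⟨s, y, hy, rfl⟩
    obtain ⟨s1, h1⟩ := exists_sol r (-s) (-s)
    obtain ⟨h, hh, e⟩ := R.claimB h1
    refine ⟨-s1, h⁻¹ * y, mul_mem (inv_mem hh) hy, ?_⟩
    calc b⁻¹ * (a ^ s * y) = (a ^ (-s) * b)⁻¹ * y := by group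
      _ = _ := by rw [e]; group
  have pa' := Rel.left_inv_closed (fin_ord (by positivity) R.ha) P pa
  have pd' := Rel.left_inv_closed (fin_ord (by positivity) R.hd) P pd
  have pb' := Rel.left_inv_closed R.fb.inv P pb
  rw [inv_inv] at pb'
  refine prod_group R.ha H hf hp fun g => ?_
  have hg : g ∈ closure {a, a * d, a * b} := hgen ▸ mem_top g
  show P g
  induction hg using Subgroup.closure_induction_left with
  | one => exact ⟨0, 1, one_mem _, by simp⟩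
  | mul_left y hy g _ ih =>
    rcases hy with rfl | rfl | rfl
    · exact pa _ ih
    · rw [mul_assoc]; exact pa _ (pd _ ih)
    · rw [mul_assoc]; exact pa _ (pb' _ ih)
  | inv_mul_cancel y hy g _ ih =>
    rcases hy with rfl | rfl | rfl
    · exact pa' _ ih
    · rw [mul_inv_rev, mul_assoc]; exact pd' _ (pa' _ ih)
    · rw [mul_inv_rev, mul_assoc]; exact pb _ (pa' _ ih)

end RelQ

end Pool.Agent.MP_6b47b1_al.T3
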