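import Pool.Agent.MP_6b47b1_al.T3b

/-! Finite 3-groups of deficiency zero: the group with the three relations
`e a e⁻¹ = a⁻²`, `x e^k x⁻¹ = (a e)^(-k) x^3`, `x^3 = a^(3^r) e^(3^(r+2))`, where
`2 k = 3^(r+2) + 1`, is a finite 3-group. -/

set_option autoImplicit false

namespace Pool.Agent.MP_6b47b1_al.T3

open Subgroup Pointwise

theorem two_S {r k : ℕ} (hk : 2 * k = 3 ^ (r + 2) + 1) : ∃ v : ℤ, 2 * S k = 1 - 3 * v := by
  obtain ⟨j, hj⟩ := S_mod k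
  have h : (2 : ℤ) * k = 3 ^ (r + 2) + 1 := by exact_mod_cast hk
  exact ⟨-(3 ^ (r + 1) + 2 * j), by rw [hj]; linear_combination h⟩

theorem num_one {r k : ℕ} (hk : 2 * k = 3 ^ (r + 2) + 1) {o : ℤ} (h1 : o ∣ 2 * S k)
    (h2 : o ∣ (-2) ^ (3 * 3 ^ (r + 2)) - 1) : o ∣ 1 := by
  have e1 : (1 - 3 * S k) ^ 6 = (-2 : ℤ) ^ (3 * 3 ^ (r + 2)) * (-8) := by
    have : k * 6 = 3 * 3 ^ (r + 2) + 3 := by omega
    rw [← S_eq, ← pow_mul, this, pow_add]; norm_num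
  obtain ⟨p, hp⟩ : S k ∣ (1 - 3 * S k) ^ 6 - 1 := by
    have := sub_dvd_pow_sub_pow (1 - 3 * S k) 1 6
    rw [one_pow] at this
    exact Dvd.dvd.trans ⟨-3, by ring⟩ this
  have h18 : o ∣ 18 := by
    have := dvd_sub (h2.mul_left (-16)) (h1.mul_right p)
    have e2 : (18 : ℤ) = -16 * ((-2) ^ (3 * 3 ^ (r + 2)) - 1) - 2 * S k * p := by
      linear_combination 2 * e1 - 2 * hp
    rwa [e2]
  obtain ⟨v, hv⟩ := two_S hk
  obtain ⟨α, β, h⟩ := cop 2 v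
  have ho2 : o ∣ 2 := by
    have := dvd_add (h18.mul_left α) (h1.mul_left (2 * β))
    have e2 : (2 : ℤ) = α * 18 + 2 * β * (2 * S k) := by
      rw [hv]; linear_combination (-2 : ℤ) * h
    rwa [← e2] at this
  obtain ⟨c, hc⟩ := odd_pow_sub (n := 3 * 3 ^ (r + 2)) (by positivity)
  rw [hc] at h2
  simpa using dvd_sub h2 (ho2.mul_right c)

variable {G : Type} [Group G]

theorem norm_sup {u v g : G} (hf : Finite (zpowers u ⊔ zpowers v : Subgroup G))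
    (hu : g * u * g⁻¹ ∈ (zpowers u ⊔ zpowers v : Subgroup G))
    (hv : g * v * g⁻¹ ∈ (zpowers u ⊔ zpowers v : Subgroup G)) :
    g ∈ normalizer ((zpowers u ⊔ zpowers v : Subgroup G) : Set G) := by
  apply Subgroup.mem_normalizer_fintype
  have : (zpowers u ⊔ zpowers v : Subgroup G) ≤
      (zpowers u ⊔ zpowers v : Subgroup G).comap (MulAut.conj g).toMonoidHom := by
    apply sup_le <;> rw [zpowers_le]
    · exact hu
    · exact hv
  exact fun h hh => this hh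

theorem geom_top {a e : G} {r : ℕ} (h1 : e * a = a ^ (-2 : ℤ) * e) (ha : a ^ 3 ^ (r + 2) = 1)
    (s : ℤ) : (a ^ s * e) ^ 3 ^ (r + 2) = e ^ 3 ^ (r + 2) := by
  obtain ⟨w, hw⟩ := S_three_pow (r + 2)
  rw [geom h1, zpow_congr ha (t := 0) ⟨s * w, by rw [hw]; push_cast; ring⟩]
  simp

theorem step4 {a e x : G} {r k : ℕ} (hk : 2 * k = 3 ^ (r + 2) + 1)
    (hgen : closure {a, e, x} = ⊤) (h1 : e * a = a ^ (-2 : ℤ) * e)
    (h2 : x * e ^ k * x⁻¹ = ((a * e) ^ k)⁻¹) (ha : a ^ 3 ^ r = 1) (he : e ^ 3 ^ (r + 2) = 1)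
    (hx : x ^ 3 = 1) : Finite G ∧ IsPGroup 3 G := by
  have ha' : a ^ 3 ^ (r + 2) = 1 := by rw [pow_add, pow_mul, ha, one_pow]
  have hq : (a * e) ^ 3 ^ (r + 2) = 1 := by simpa [he] using geom_top h1 ha' 1
  have hd : (a⁻¹ * e) ^ 3 ^ (r + 2) = 1 := by simpa [he] using geom_top h1 ha' (-1)
  have e1 : x * e * x⁻¹ = (a * e)⁻¹ := by
    have e2 : e = e ^ k * e ^ k := by
      rw [← pow_add, ← two_mul, hk, pow_succ, he, one_mul]
    have e3 : a * e = (a * e) ^ k * (a * e) ^ k := by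
      rw [← pow_add, ← two_mul, hk, pow_succ, hq, one_mul]
    calc x * e * x⁻¹ = x * (e ^ k * e ^ k) * x⁻¹ := by rw [← e2]
      _ = (x * e ^ k * x⁻¹) * (x * e ^ k * x⁻¹) := by group
      _ = ((a * e) ^ k * (a * e) ^ k)⁻¹ := by rw [h2, mul_inv_rev]
      _ = _ := by rw [← e3]
  have e4 : e * a⁻¹ = a ^ (2 : ℤ) * e := by simpa using conj_one h1 (-1)
  have R : RelQ r (r + 2) a (a⁻¹ * e) (a⁻¹ * x) :=
    { hda := by rw [mul_assoc, h1]; group
      ha := ha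
      hd := hd
      hx := by simpa using hx
      hab := by
        calc a * (a⁻¹ * x) = a⁻¹ * (a ^ (2 : ℤ) * e) * (a * e)⁻¹ * x := by group
          _ = _ := by rw [← e4, ← e1]; group }
  exact R.group (by simpa using hgen)

/-- The three relations. -/
structure RelG (r k : ℕ) (a e x : G) : Prop where
  hk : 2 * k = 3 ^ (r + 2) + 1
  h1 : e * a = a ^ (-2 : ℤ) * e
  h2 : x * e ^ k * x⁻¹ = ((a * e) ^ k)⁻¹ * x ^ 3
  h3 : x ^ 3 = a ^ 3 ^ r * e ^ 3 ^ (r + 2)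

/-- The conjugate of `e a^(-m)` by `x`. -/
def q1 (k : ℕ) (a e x : G) : G := ((a * e) ^ k)⁻¹ * x ^ 3 * ((a * e) ^ k)⁻¹

/-- The conjugate of a power of `a` by `x`. -/
def yy (k : ℕ) (a e x : G) : G := ((a * e) ^ k)⁻¹ * x ^ 3 * (q1 k a e x ^ k)⁻¹

namespace RelG

variable {r k : ℕ} {a e x : G} (R : RelG r k a e x)
include R

theorem f1 : x * (a ^ (2 * 3 ^ r : ℤ) * e) * x⁻¹ = q1 k a e x := by
  have e1 : a ^ (2 * 3 ^ r : ℤ) * e = e ^ k * e ^ k * (x ^ 3)⁻¹ := by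
    have := conj_one R.h1 (-(3 ^ r : ℤ))
    rw [show -2 * -(3 ^ r : ℤ) = 2 * 3 ^ r by ring] at this
    rw [← this, ← pow_add, ← two_mul, R.hk, R.h3, pow_succ' e, zpow_neg]
    norm_cast
    group
  calc _ = (x * e ^ k * x⁻¹) * (x * e ^ k * x⁻¹) * (x ^ 3)⁻¹ := by rw [e1]; group
    _ = _ := by rw [R.h2, q1]; group

theorem f2 : x * a ^ (-(2 * 3 ^ r * S k)) * x⁻¹ = yy k a e x := by
  have e1 : a ^ (-(2 * 3 ^ r * S k)) = e ^ k * ((a ^ (2 * 3 ^ r : ℤ) * e) ^ k)⁻¹ := by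
    rw [geom R.h1]; group
  rw [yy, ← R.f1, ← R.h2, conj_pow, e1]; group

theorem f3 : q1 k a e x * yy k a e x = yy k a e x ^ (-2 : ℤ) * q1 k a e x := by
  rw [← R.f1, ← R.f2, conj_zpow, ← zpow_mul]
  calc _ = x * a ^ (2 * 3 ^ r : ℤ) * (e * a ^ (-(2 * 3 ^ r * S k))) * x⁻¹ := by group
    _ = _ := by rw [conj_one R.h1]; group

theorem levels {N : Subgroup G} (ha : a ∈ N) (he : e ∈ normalizer (N : Set G)) :
    Lv N e (q1 k a e x) (-1) ∧ Lv N e (yy k a e x) (3 ^ (r + 2) : ℕ) ∧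
      e ^ (3 * 3 ^ (r + 2)) ∈ N := by
  have hk : (2 : ℤ) * k = (3 ^ (r + 2) : ℕ) + 1 := by exact_mod_cast R.hk
  have l1 := (((Lv.of_mem ha).mul he Lv.self).pow he k).inv he
  have l2 : Lv N e (x ^ 3) _ :=
    R.h3 ▸ (Lv.of_mem (pow_mem ha (3 ^ r))).mul he (Lv.self.pow he (3 ^ (r + 2)))
  have l3 : Lv N e (q1 k a e x) (-1) := by
    have := (l1.mul he l2).mul he l1
    rwa [show -(k * (0 + 1) : ℤ) + (0 + (3 ^ (r + 2) : ℕ) * 1) + -(k * (0 + 1)) = -1 by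
      linarith] at this
  have l4 : Lv N e (yy k a e x) (3 ^ (r + 2) : ℕ) := by
    have := (l1.mul he l2).mul he ((l3.pow he k).inv he)
    rwa [show -(k * (0 + 1) : ℤ) + (0 + (3 ^ (r + 2) : ℕ) * 1) + -(k * -1) =
      (3 ^ (r + 2) : ℕ) by ring] at this
  refine ⟨l3, l4, ?_⟩
  have l5 := l3.mul he l4
  have l6 := ((l4.pow he 2).inv he).mul he l3
  rw [R.f3, zpow_neg, zpow_ofNat] at l5
  have := l5.uniq l6
  rwa [show -1 + ((3 ^ (r + 2) : ℕ) : ℤ) - (-((2 : ℕ) * (3 ^ (r + 2) : ℕ)) + -1) =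
    (3 * 3 ^ (r + 2) : ℕ) by push_cast; ring, zpow_natCast] at this

theorem a_odd : a ^ ((-2 : ℤ) ^ (3 * 3 ^ (r + 2)) - 1) = 1 := by
  let N : Subgroup G := centralizer (Set.range fun i : ℤ => e ^ i * a * e ^ (-i))
  have hc : ∀ (j : ℤ) (h : G), h ∈ N → e ^ j * h * e ^ (-j) ∈ N := by
    rintro j h hh _ ⟨i, rfl⟩
    have := hh _ ⟨i - j, rfl⟩
    simp only [] at this ⊢
    calc _ = e ^ j * (e ^ (i - j) * a * e ^ (-(i - j)) * h) * e ^ (-j) := by group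
      _ = _ := by rw [this]; group
  have he : e ∈ normalizer (N : Set G) := by
    rw [mem_normalizer_iff]
    intro h
    constructor
    · intro hh; simpa using hc 1 h hh
    · intro hh
      have := hc (-1) _ hh
      rwa [show e ^ (-1 : ℤ) * (e * h * e⁻¹) * e ^ (-(-1) : ℤ) = h by group] at this
  have hn : ∀ n : ℕ, e ^ n * a * (e ^ n)⁻¹ = a ^ (-2 : ℤ) ^ n := by
    intro n
    have := conj_nat R.h1 n 1
    rw [zpow_one, one_mul] at this
    rw [this]; group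
  have ha : a ∈ N := by
    rintro _ ⟨i, rfl⟩
    obtain ⟨n, rfl | rfl⟩ := Int.eq_nat_or_neg i
    · simp only [zpow_neg, zpow_natCast]
      rw [hn]; group
    · simp only [zpow_neg, zpow_natCast, inv_inv]
      calc _ = (e ^ n)⁻¹ * (a * (e ^ n * a * (e ^ n)⁻¹)) * e ^ n := by group
        _ = (e ^ n)⁻¹ * ((e ^ n * a * (e ^ n)⁻¹) * a) * e ^ n := by rw [hn]; group
        _ = _ := by group
  have h := (R.levels ha he).2.2 _ ⟨0, rfl⟩
  simp only [neg_zero, zpow_zero, one_mul, mul_one] at h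
  rw [zpow_sub, ← hn, ← h]; group

theorem fa : IsOfFinOrder a := by
  obtain ⟨c, hc⟩ := odd_pow_sub (n := 3 * 3 ^ (r + 2)) (by positivity)
  exact isOfFinOrder_iff_zpow_eq_one.2 ⟨_, by omega, R.a_odd⟩

theorem e_norm : e ∈ normalizer (zpowers a : Set G) :=
  norm_of_conj R.fa ⟨-2, by rw [R.h1]; group⟩

theorem ha : a ^ 3 ^ (r + 2) = 1 := by
  obtain ⟨l1, l2, l3⟩ := R.levels (mem_zpowers a) R.e_norm
  obtain ⟨n, hn⟩ : yy k a e x ^ 3 ∈ zpowers a := by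
    apply (l2.pow R.e_norm 3).mem
    rwa [← Nat.cast_mul, zpow_natCast]
  obtain ⟨t, ht⟩ := l1
  simp only [neg_neg, zpow_one] at hn ht
  have s0 : SemiconjBy (q1 k a e x) (yy k a e x) (yy k a e x ^ (-2 : ℤ)) := R.f3
  have s1 := (s0.pow_right 3).eq
  rw [← zpow_natCast (_ ^ (-2 : ℤ)), ← zpow_mul, mul_comm (-2 : ℤ), zpow_mul, zpow_natCast, ← hn,
    show q1 k a e x = a ^ t * e⁻¹ by rw [ht]; group, ← zpow_mul] at s1
  have s2 := conj_one R.h1 (n * -2)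
  have s3 : (a ^ n) ^ 3 = 1 := by
    calc (a ^ n) ^ 3 = (a ^ (-2 * (n * -2)) * e) * e⁻¹ * a ^ (-n) := by group
      _ = e * a ^ (-t) * (a ^ (n * -2) * (a ^ t * e⁻¹)) * a ^ (-n) := by rw [← s2]; group
      _ = 1 := by rw [← s1]; group
  rw [hn, ← R.f2, ← pow_mul, conj_pow] at s3
  have s4 : (a ^ 3 ^ (r + 2)) ^ (2 * S k) = 1 := by
    have s5 : (a ^ (-(2 * 3 ^ r * S k))) ^ (3 * 3) = 1 := by simpa using s3
    rw [← inv_eq_one, ← s5, ← zpow_natCast a, ← zpow_natCast _ (3 * 3), ← zpow_mul, ← zpow_mul,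
      ← zpow_neg]
    congr 1
    push_cast; ring
  have s6 : (a ^ 3 ^ (r + 2)) ^ ((-2 : ℤ) ^ (3 * 3 ^ (r + 2)) - 1) = 1 := by
    rw [← zpow_natCast a, ← zpow_mul, mul_comm, zpow_mul, R.a_odd, one_zpow]
  have := num_one R.hk (orderOf_dvd_iff_zpow_eq_one.2 s4) (orderOf_dvd_iff_zpow_eq_one.2 s6)
  simpa using orderOf_dvd_iff_zpow_eq_one.1 this

theorem group (hgen : closure {a, e, x} = ⊤) : Finite G ∧ IsPGroup 3 G := by
  have ha := R.ha
  have hu : (a ^ 3 ^ r) ^ 3 ^ 2 = 1 := by rw [← pow_mul, ← pow_add, ha]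
  have hw : (e ^ 3 ^ (r + 2)) ^ 3 ^ (r + 3) = 1 := by
    obtain ⟨n, hn⟩ := (R.levels (mem_zpowers a) R.e_norm).2.2
    simp only [] at hn
    rw [← pow_mul, show 3 ^ (r + 2) * 3 ^ (r + 3) = 3 * 3 ^ (r + 2) * 3 ^ (r + 2) by ring,
      pow_mul, ← hn, ← zpow_natCast, ← zpow_mul, mul_comm, zpow_mul, zpow_natCast, ha, one_zpow]
  have wa : Commute (e ^ 3 ^ (r + 2)) a := by
    obtain ⟨w, hw⟩ := S_three_pow (r + 2)
    have := conj_nat R.h1 (3 ^ (r + 2)) 1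
    rw [zpow_congr ha (s := 1 * (-2) ^ 3 ^ (r + 2)) (t := 1)
      ⟨-3 * w, by rw [S_eq, hw]; push_cast; ring⟩, zpow_one] at this
    exact this
  obtain ⟨hf, hp⟩ := sup_group hu hw (norm_of_conj (fin_ord (by positivity) hu) (by
    rw [(wa.pow_right _).eq, mul_inv_cancel_right]; exact mem_zpowers _))
  set D : Subgroup G := zpowers (a ^ 3 ^ r) ⊔ zpowers (e ^ 3 ^ (r + 2)) with hD
  have uD : a ^ 3 ^ r ∈ D := mem_sup_left (mem_zpowers _)
  have wD : e ^ 3 ^ (r + 2) ∈ D := mem_sup_right (mem_zpowers _)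
  have cD : x ^ 3 ∈ D := R.h3 ▸ mul_mem uD wD
  have na : a ∈ normalizer (D : Set G) := by
    apply norm_sup hf
    · rwa [show a * a ^ 3 ^ r * a⁻¹ = a ^ 3 ^ r by group]
    · rwa [← wa.eq, mul_inv_cancel_right]
  have ne : e ∈ normalizer (D : Set G) := by
    apply norm_sup hf
    · have := conj_one R.h1 (3 ^ r : ℕ)
      rw [zpow_natCast, mul_comm (-2 : ℤ), zpow_mul, zpow_natCast] at this
      rw [this, mul_inv_cancel_right]
      exact zpow_mem uD _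
    · rwa [show e * e ^ 3 ^ (r + 2) * e⁻¹ = e ^ 3 ^ (r + 2) by group]
  have nq := mul_mem na ne
  have yD : yy k a e x ∈ D := by
    have hk : (2 : ℤ) * k = (3 ^ (r + 2) : ℕ) + 1 := by exact_mod_cast R.hk
    have l1 := ((Lv.self (N := D)).pow nq k).inv nq
    have l2 := l1.mul nq (Lv.of_mem cD)
    have l3 := l2.mul nq (((l2.mul nq l1).pow nq k).inv nq)
    apply Lv.mem l3
    rw [show -(k * 1 : ℤ) + 0 + -(k * (-(k * 1) + 0 + -(k * 1))) = (3 ^ (r + 2) : ℕ) * k by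
      linear_combination k * hk, zpow_mul, zpow_natCast, zpow_natCast]
    have := geom_top R.h1 ha 1
    rw [zpow_one] at this
    rw [this]
    exact pow_mem wD _
  have xu : x * a ^ 3 ^ r * x⁻¹ ∈ D := by
    obtain ⟨v, hv⟩ := two_S R.hk
    obtain ⟨α, β, h⟩ := cop 2 v
    have := zpow_mem yD (-β)
    rw [← R.f2, conj_zpow, ← zpow_mul, zpow_congr ha (t := (3 ^ r : ℕ)) ⟨-α, by
      push_cast
      linear_combination (3 ^ r * β) * hv + 3 ^ r * h⟩, zpow_natCast] at this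
    exact this
  have nx : x ∈ normalizer (D : Set G) := by
    apply norm_sup hf xu
    have := mul_mem (inv_mem xu) cD
    rwa [show (x * a ^ 3 ^ r * x⁻¹)⁻¹ * x ^ 3 = x * ((a ^ 3 ^ r)⁻¹ * x ^ 3) * x⁻¹ by group,
      R.h3, inv_mul_cancel_left] at this
  have : D.Normal := by
    rw [← normalizer_eq_top_iff, eq_top_iff, ← hgen, closure_le]
    rintro _ (rfl | rfl | rfl)
    exacts [na, ne, nx]
  apply ext_group D hf hp
  let π := QuotientGroup.mk' D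
  have e1 := congrArg π R.h1
  have e2 := congrArg π R.h2
  have e3 : π (a ^ 3 ^ r) = 1 := (QuotientGroup.eq_one_iff _).2 uD
  have e4 : π (e ^ 3 ^ (r + 2)) = 1 := (QuotientGroup.eq_one_iff _).2 wD
  have e5 : π (x ^ 3) = 1 := (QuotientGroup.eq_one_iff _).2 cD
  simp only [map_mul, map_pow, map_zpow, map_inv] at e1 e2 e3 e4 e5
  rw [e5, mul_one] at e2
  exact step4 (a := π a) (e := π e) (x := π x) R.hk (gen3_quot hgen D) e1 e2 e3 e4 e5

end RelG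

end Pool.Agent.MP_6b47b1_al.T3
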