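import Pool.Agent.MP_6b47b1_al.T3c

/-! Finite 3-groups of deficiency zero: a model of the three relations in `SL(2, R)` and the
lower bound for the derived length. -/

set_option autoImplicit false

namespace Pool.Agent.MP_6b47b1_al.T3

open Subgroup Matrix MatrixGroups

theorem relG_of {G : Type} [Group G] {r k : ℕ} {a d x : G} (hk : 2 * k = 3 ^ (r + 2) + 1)
    (hda : d * a = a ^ (-2 : ℤ) * d) (ha : a ^ 3 ^ r = 1) (hd : d ^ 3 ^ (r + 2) = 1)
    (hx : x ^ 3 = 1) (h : x * (a * d) = a * d⁻¹ * x) : RelG r k a (a * d) x where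
  hk := hk
  h1 := by rw [mul_assoc, hda]; group
  h2 := by
    have e1 : x * (a * d) * x⁻¹ = (a * (a * d))⁻¹ := by
      calc _ = d⁻¹ * (d * a) * d⁻¹ := by rw [h]; group
        _ = _ := by rw [hda]; group
    rw [hx, mul_one, ← conj_pow, e1, inv_pow]
  h3 := by
    have ha' : a ^ 3 ^ (r + 2) = 1 := by rw [pow_add, pow_mul, ha, one_pow]
    have := geom_top hda ha' 1
    rw [zpow_one] at this
    rw [hx, ha, this, hd, mul_one]

variable {R : Type} [CommRing R]

theorem lo_inv (s : R) : (lo s)⁻¹ = lo (-s) :=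
  inv_eq_of_mul_eq_one_right (by rw [lo_mul, add_neg_cancel, lo_zero])

theorem dg_inv (u v : R) (h : u * v = 1) : (dg u v h)⁻¹ = dg v u (by rw [mul_comm, h]) := by
  apply inv_eq_of_mul_eq_one_right
  ext i j; fin_cases i <;> fin_cases j <;> simp [dg, h, mul_comm v u]

theorem dg_pow (u v : R) (h : u * v = 1) (n : ℕ) :
    dg u v h ^ n = dg (u ^ n) (v ^ n) (by rw [← mul_pow, h, one_pow]) := by
  induction n with
  | zero => ext i j; fin_cases i <;> fin_cases j <;> simp [dg]
  | succ n ih =>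
    rw [pow_succ, ih]
    ext i j; fin_cases i <;> fin_cases j <;> simp [dg, pow_succ]

theorem dg_conj_lo (u v s : R) (h : v * u = 1) :
    dg v u h * lo s * (dg v u h)⁻¹ = lo (u ^ 2 * s) := by
  rw [mul_inv_eq_iff_eq_mul]
  ext i j; fin_cases i <;> fin_cases j <;> simp [lo, dg]
  linear_combination (-(s * u)) * h

theorem dg_eq' (e v : R) (h : v * (1 + e * e) = 1) :
    dg v (1 + e * e) h = up (-(e * v)) * lo e * up e * lo (-(e * v)) := by
  ext i j; fin_cases i <;> fin_cases j <;> simp [up, lo, dg]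
  · linear_combination (1 - e * e * v) * h
  · linear_combination e * h
  · linear_combination e * h
  · ring

theorem cube_mat : (up (1 : R) * lo (-3)) ^ 3 = 1 := by
  rw [pow_three]
  ext i j; fin_cases i <;> fin_cases j <;> simp [up, lo] <;> ring

theorem model {r k : ℕ} (hk : 2 * (k + 1) = 3 ^ (r + 2) + 1) (h3 : (3 : R) ^ r = 0) :
    ∃ d : SL(2, R), RelG r (k + 1) (up (1 : R)) (up 1 * d) (up 1 * lo (-3)) := by
  have hM : (-2 : R) ^ 3 ^ (r + 2) = 1 := by
    obtain ⟨w, hw⟩ := S_three_pow (r + 2)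
    have := congrArg (Int.cast : ℤ → R) (S_eq (3 ^ (r + 2)))
    rw [hw] at this
    push_cast at this
    rw [this, pow_add, h3]; ring
  obtain ⟨σ, hσ⟩ : ∃ σ : R, σ = (-2) ^ k := ⟨_, rfl⟩
  have h1 : (-2 * σ) * σ = 1 := by
    rw [← hM, show 3 ^ (r + 2) = k + k + 1 by omega, hσ]; ring
  have hσM : σ ^ 3 ^ (r + 2) = 1 := by rw [hσ, ← pow_mul, mul_comm, pow_mul, hM, one_pow]
  refine ⟨dg (-2 * σ) σ h1, relG_of hk ?_ ?_ ?_ cube_mat ?_⟩
  · rw [zpow_neg, zpow_ofNat, up_pow, up_inv]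
    ext i j; fin_cases i <;> fin_cases j <;> simp [up, dg]
  · rw [up_pow]; push_cast; rw [h3, zero_mul, up_zero]
  · have h2 : (-(2 * σ)) ^ 3 ^ (r + 2) = 1 := by rw [← neg_mul, mul_pow, hM, hσM, one_mul]
    rw [dg_pow]
    ext i j; fin_cases i <;> fin_cases j <;> simp [dg, h2, hσM]
  · rw [dg_inv]
    ext i j; fin_cases i <;> fin_cases j <;> simp [up, lo, dg] <;> ring

theorem mem_derived {G : Type} [Group G] (f : G →* SL(2, R)) {a b : G} (ha : f a = up 1)
    (hb : f b = lo (-3)) (h3 : IsNilpotent (3 : R)) (hnat : ∀ t : R, ∃ k : ℕ, (k : R) = t)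
    (i : ℕ) : ∀ t : R, up (3 ^ (3 ^ i) * t) ∈ (derivedSeries G i).map f ∧
      lo (3 ^ (3 ^ i) * t) ∈ (derivedSeries G i).map f := by
  induction i with
  | zero =>
    intro t
    obtain ⟨k, hk⟩ := hnat (3 ^ (3 ^ 0) * t)
    obtain ⟨l, hl⟩ := hnat (-t)
    exact ⟨⟨a ^ k, mem_top _, by rw [map_pow, ha, up_pow, mul_one, hk]⟩,
      ⟨b ^ l, mem_top _, by rw [map_pow, hb, lo_pow, hl]; congr 1; ring⟩⟩
  | succ i ih =>
    intro t
    set N := (derivedSeries G i).map f with hN
    set e : R := 3 ^ (3 ^ i) with he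
    have hnil : IsNilpotent e := h3.pow_of_pos (by positivity)
    have hnil2 : IsNilpotent (e * e) := (Commute.all _ _).isNilpotent_mul_right hnil
    have hnil' : IsNilpotent (-(3 + e * e)) := ((Commute.all _ _).isNilpotent_add h3 hnil2).neg
    obtain ⟨v, hv⟩ := hnil2.isUnit_one_add.exists_left_inv
    obtain ⟨v', hv'⟩ := hnil'.isUnit_one_add.exists_left_inv
    have hD : dg v (1 + e * e) hv ∈ N := by
      rw [dg_eq']
      exact mul_mem (mul_mem (mul_mem (by simpa using (ih (-v)).1) (by simpa using (ih 1).2))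
        (by simpa using (ih 1).1)) (by simpa using (ih (-v)).2)
    have hc1 := commutator_mem_commutator (inv_mem hD) (ih (-(v' * t))).1
    have hc2 := commutator_mem_commutator hD (ih (-(v' * t))).2
    have key : (1 + e * e) ^ 2 * (e * -(v' * t)) + -(e * -(v' * t)) = 3 ^ 3 ^ (i + 1) * t := by
      rw [pow_succ 3 i, pow_mul, ← he]
      linear_combination (e ^ 3 * t) * hv'
    rw [commutatorElement_def, inv_inv, dg_conj, up_inv, up_mul, key] at hc1
    rw [commutatorElement_def, dg_conj_lo, lo_inv, lo_mul, key] at hc2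
    rw [derivedSeries_succ, Subgroup.map_commutator]
    exact ⟨hc1, hc2⟩

end Pool.Agent.MP_6b47b1_al.T3
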