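import Pool.Agent.MP_6b47b1_al.Derived

/-! Three pairwise permutable cyclic subgroups: the finite 3-group at the core of the family. -/

set_option autoImplicit false

namespace Pool.Agent.MP_6b47b1_al.Three

open Subgroup Pointwise Finset

/-- A subgroup that is the product of two finite 3-subgroups is a finite 3-group. -/
theorem pgroup_mul {Q : Type} [Group Q] (U V W : Subgroup Q) (fU : Finite U) (fV : Finite V)
    (hU : IsPGroup 3 U) (hV : IsPGroup 3 V) (hW : (W : Set Q) = (U : Set Q) * (V : Set Q)) :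
    Finite W ∧ IsPGroup 3 W := by
  have h0 : ((U : Set Q) * (V : Set Q)).Finite := Set.Finite.mul fU fV
  refine ⟨by rw [← hW] at h0; exact h0, ?_⟩
  have : Fact (Nat.Prime 3) := ⟨Nat.prime_three⟩
  obtain ⟨e, he⟩ := IsPGroup.iff_card.1 hV
  have h1 := Subgroup.card_mul_eq_card_subgroup_mul_card_quotient V (U : Set Q)
  have h2 : ((U : Set Q).image (↑) : Set (Q ⧸ V)) = MulAction.orbit U ((1 : Q) : Q ⧸ V) := by
    ext y
    constructor
    · rintro ⟨u, hu, rfl⟩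
      exact ⟨⟨u, hu⟩, congrArg QuotientGroup.mk (mul_one u)⟩
    · rintro ⟨⟨u, hu⟩, rfl⟩
      exact ⟨u, hu, congrArg QuotientGroup.mk (mul_one u).symm⟩
  have : Finite (MulAction.orbit U ((1 : Q) : Q ⧸ V)) := Set.finite_range _
  obtain ⟨f, hf⟩ := hU.card_orbit ((1 : Q) : Q ⧸ V)
  rw [h2, hf, he, ← hW, ← pow_add] at h1
  exact IsPGroup.of_card h1

theorem cyc {Q : Type} [Group Q] {x : Q} {K : ℕ} (hx : x ^ 3 ^ K = 1) :
    Finite (zpowers x) ∧ IsPGroup 3 (zpowers x) := by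
  refine ⟨(isOfFinOrder_iff_pow_eq_one.2 ⟨_, by positivity, hx⟩).finite_zpowers, ?_⟩
  apply IsPGroup.of_card_dvd_pow (n := K)
  rw [Nat.card_zpowers]
  exact orderOf_dvd_of_pow_eq_one hx

/-- Geometric sums. -/
def tau (u : ℤ) (j : ℕ) : ℤ := ∑ i ∈ range j, u ^ i

theorem tau_add (u : ℤ) (j m : ℕ) : tau u (j + m) = tau u j + u ^ j * tau u m := by
  unfold tau
  rw [Finset.sum_range_add, Finset.mul_sum]
  simp only [pow_add]

theorem tau_succ (u : ℤ) (j : ℕ) : tau u (j + 1) = 1 + u * tau u j := by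
  rw [add_comm j 1, tau_add]
  simp [tau]

theorem pow_one_mod {u : ℤ} (hu : (3 : ℤ) ∣ u - 1) (m : ℕ) : ∃ t : ℤ, u ^ m = 1 + 3 * t := by
  have h : u - 1 ∣ u ^ m - 1 := by simpa using sub_dvd_pow_sub_pow u 1 m
  obtain ⟨t, ht⟩ := hu.trans h
  exact ⟨t, by linarith⟩

theorem tau_three_pow {u : ℤ} (hu : (3 : ℤ) ∣ u - 1) (K : ℕ) :
    ∃ w : ℤ, tau u (3 ^ K) = 3 ^ K * (1 + 3 * w) := by
  induction K with
  | zero => exact ⟨0, by simp [tau]⟩
  | succ K ih =>
    obtain ⟨w, hw⟩ := ih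
    obtain ⟨t, ht⟩ := pow_one_mod hu (3 ^ K)
    have e : 3 ^ (K + 1) = 3 ^ K + (3 ^ K + 3 ^ K) := by ring
    refine ⟨w + (t + t ^ 2) * (1 + 3 * w), ?_⟩
    rw [e, tau_add, tau_add, hw, ht]
    ring

theorem tau_surj {u : ℤ} (hu : (3 : ℤ) ∣ u - 1) (K : ℕ) (s : ℤ) :
    ∃ j : ℕ, (3 : ℤ) ^ K ∣ s - tau u j := by
  induction K with
  | zero => exact ⟨0, by simp⟩
  | succ K ih =>
    have step : ∀ j : ℕ, ∃ j' : ℕ, ∃ c : ℤ, tau u j' = tau u j + 3 ^ K + 3 ^ (K + 1) * c := by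
      intro j
      obtain ⟨w, hw⟩ := tau_three_pow hu K
      obtain ⟨t, ht⟩ := pow_one_mod hu j
      refine ⟨j + 3 ^ K, w + t + 3 * t * w, ?_⟩
      rw [tau_add, hw, ht]
      ring
    obtain ⟨j, v, hv⟩ := ih
    obtain ⟨j1, c1, h1⟩ := step j
    obtain ⟨j2, c2, h2⟩ := step j1
    have hcases : ∃ c : ℤ, v = 3 * c ∨ v = 3 * c + 1 ∨ v = 3 * c + 2 := ⟨v / 3, by omega⟩
    obtain ⟨c, hc | hc | hc⟩ := hcases
    · exact ⟨j, c, by rw [hv, hc]; ring⟩
    · refine ⟨j1, c - c1, ?_⟩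
      rw [h1]
      rw [hc] at hv
      linear_combination hv
    · refine ⟨j2, c - c1 - c2, ?_⟩
      rw [h2, h1]
      rw [hc] at hv
      linear_combination hv

/-- If `x` raises `x * y` to a power congruent to one modulo three, the cyclic groups generated
by `x` and by `y` permute. -/
theorem perm {Q : Type} [Group Q] {x y : Q} {u : ℤ} {K : ℕ} (hu : (3 : ℤ) ∣ u - 1)
    (hx : x ^ 3 ^ K = 1) (hZ : (x * y) ^ 3 ^ K = 1) (hc : x * (x * y) * x⁻¹ = (x * y) ^ u)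
    (g : Q) (hg : g ∈ closure {x, y}) : ∃ i j : ℤ, g = y ^ i * x ^ j := by
  set Z := x * y with hZdef
  have hs : SemiconjBy x Z (Z ^ u) := by
    show x * Z = Z ^ u * x
    rw [← hc]; group
  have hxs : ∀ s : ℤ, x * Z ^ s = Z ^ (u * s) * x := by
    intro s
    rw [(hs.zpow_right s).eq, zpow_mul]
  have fx : IsOfFinOrder x := isOfFinOrder_iff_pow_eq_one.2 ⟨_, by positivity, hx⟩
  let P : Q → Prop := fun g => ∃ s t : ℤ, g = Z ^ s * x ^ t
  have px : ∀ g, P g → P (x * g) := by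
    rintro g ⟨s, t, rfl⟩
    exact ⟨u * s, t + 1, by rw [← mul_assoc, hxs]; group⟩
  have px' : ∀ g, P g → P (x⁻¹ * g) := Rel.left_inv_closed fx P px
  have pZ : ∀ (r : ℤ) g, P g → P (Z ^ r * g) := by
    rintro r g ⟨s, t, rfl⟩
    exact ⟨r + s, t, by group⟩
  have hP : P g := by
    induction hg using Subgroup.closure_induction_left with
    | one => exact ⟨0, 0, by simp⟩
    | mul_left a ha g _ ih =>
      rcases ha with rfl | rfl
      · exact px g ih
      · have : a * g = x⁻¹ * (Z ^ (1 : ℤ) * g) := by rw [hZdef]; group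
        rw [this]
        exact px' _ (pZ 1 g ih)
    | inv_mul_cancel a ha g _ ih =>
      rcases ha with rfl | rfl
      · exact px' g ih
      · have : a⁻¹ * g = Z ^ (-1 : ℤ) * (x * g) := by rw [hZdef]; group
        rw [this]
        exact pZ _ _ (px g ih)
  obtain ⟨s, t, rfl⟩ := hP
  have key : ∀ j : ℕ, y⁻¹ ^ j = Z ^ (-tau u j) * x ^ j := by
    intro j
    induction j with
    | zero => simp [tau]
    | succ j ih =>
      have e1 : y⁻¹ = Z ^ (-1 : ℤ) * x := by rw [hZdef]; group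
      calc y⁻¹ ^ (j + 1) = y⁻¹ * y⁻¹ ^ j := pow_succ' _ _
        _ = Z ^ (-1 : ℤ) * (x * Z ^ (-tau u j)) * x ^ j := by rw [ih]; nth_rw 1 [e1]; group
        _ = _ := by rw [hxs, tau_succ]; group
  obtain ⟨j, hj⟩ := tau_surj hu K (-s)
  have e2 : Z ^ s = Z ^ (-tau u j) := by
    apply zpow_congr hZ
    obtain ⟨c, hc⟩ := hj
    exact ⟨-c, by push_cast; linear_combination -hc⟩
  refine ⟨-(j : ℤ), -(j : ℤ) + t, ?_⟩
  have e3 : y ^ (-(j : ℤ)) = Z ^ s * x ^ j := by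
    rw [e2, ← key, zpow_neg, zpow_natCast, inv_pow]
  rw [e3]
  group

theorem perm' {Q : Type} [Group Q] {x y : Q} {u : ℤ} {K : ℕ} (hu : (3 : ℤ) ∣ u - 1)
    (hx : x ^ 3 ^ K = 1) (hZ : (x * y) ^ 3 ^ K = 1) (hc : x * (x * y) * x⁻¹ = (x * y) ^ u)
    (g : Q) (hg : g ∈ closure {x, y}) : ∃ i j : ℤ, g = x ^ i * y ^ j := by
  obtain ⟨i, j, h⟩ := perm hu hx hZ hc g⁻¹ (inv_mem hg)
  refine ⟨-j, -i, ?_⟩
  rw [← inv_inv g, h]
  group

theorem cj_pow {Q : Type} [Group Q] (c : Q) {x : Q} {m : ℕ} (hx : x ^ m = 1) :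
    (c * x * c⁻¹) ^ m = 1 := by
  rw [conj_pow, hx]; group

/-- Three elements of order a power of three, cyclically linked. -/
theorem triple {Q : Type} [Group Q] {a b c : Q} {u : ℤ} {K : ℕ} (hu : (3 : ℤ) ∣ u - 1)
    (ha : a ^ 3 ^ K = 1) (hb : b ^ 3 ^ K = 1) (hc : c ^ 3 ^ K = 1)
    (hac : (a * c) ^ 3 ^ K = 1) (hba : (b * a) ^ 3 ^ K = 1) (hcb : (c * b) ^ 3 ^ K = 1)
    (rac : a * (a * c) * a⁻¹ = (a * c) ^ u) (rba : b * (b * a) * b⁻¹ = (b * a) ^ u)
    (rcb : c * (c * b) * c⁻¹ = (c * b) ^ u) :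
    Finite (closure {a, b, c} : Subgroup Q) ∧ IsPGroup 3 (closure {a, b, c} : Subgroup Q) := by
  have haV : a ∈ closure ({b, a} : Set Q) := subset_closure (by simp)
  have hbV : b ∈ closure ({b, a} : Set Q) := subset_closure (by simp)
  have hV : ((closure {b, a} : Subgroup Q) : Set Q) = (zpowers a : Set Q) * (zpowers b : Set Q) := by
    apply Set.Subset.antisymm
    · intro g hg
      obtain ⟨i, j, rfl⟩ := perm hu hb hba rba g hg
      exact Set.mul_mem_mul ⟨i, rfl⟩ ⟨j, rfl⟩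
    · rintro _ ⟨_, ⟨i, rfl⟩, _, ⟨j, rfl⟩, rfl⟩
      exact mul_mem (zpow_mem haV i) (zpow_mem hbV j)
  obtain ⟨fV, pV⟩ := pgroup_mul _ _ _ (cyc ha).1 (cyc hb).1 (cyc ha).2 (cyc hb).2 hV
  refine pgroup_mul (zpowers c) (closure {b, a}) _ (cyc hc).1 fV (cyc hc).2 pV ?_
  apply Set.Subset.antisymm
  · intro g hg
    let P : Q → Prop := fun g => ∃ k : ℤ, ∃ v ∈ closure ({b, a} : Set Q), g = c ^ k * v
    have pa : ∀ (e : ℤ) g, P g → P (a ^ e * g) := by
      rintro e g ⟨k, v, hv, rfl⟩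
      obtain ⟨i, j, h⟩ := perm hu ha hac rac (a ^ e * c ^ k)
        (mul_mem (zpow_mem (subset_closure (by simp)) e) (zpow_mem (subset_closure (by simp)) k))
      exact ⟨i, a ^ j * v, mul_mem (zpow_mem haV j) hv, by rw [← mul_assoc, h, mul_assoc]⟩
    have pb : ∀ (e : ℤ) g, P g → P (b ^ e * g) := by
      rintro e g ⟨k, v, hv, rfl⟩
      obtain ⟨i, j, h⟩ := perm' hu hc hcb rcb (b ^ e * c ^ k)
        (mul_mem (zpow_mem (subset_closure (by simp)) e) (zpow_mem (subset_closure (by simp)) k))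
      exact ⟨i, b ^ j * v, mul_mem (zpow_mem hbV j) hv, by rw [← mul_assoc, h, mul_assoc]⟩
    have pc : ∀ (e : ℤ) g, P g → P (c ^ e * g) := by
      rintro e g ⟨k, v, hv, rfl⟩
      exact ⟨e + k, v, hv, by group⟩
    have hP : P g := by
      induction hg using Subgroup.closure_induction_left with
      | one => exact ⟨0, 1, one_mem _, by simp⟩
      | mul_left y hy g _ ih =>
        rcases hy with rfl | rfl | rfl
        · simpa using pa 1 g ih
        · simpa using pb 1 g ih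
        · simpa using pc 1 g ih
      | inv_mul_cancel y hy g _ ih =>
        rcases hy with rfl | rfl | rfl
        · simpa using pa (-1) g ih
        · simpa using pb (-1) g ih
        · simpa using pc (-1) g ih
    obtain ⟨k, v, hv, rfl⟩ := hP
    exact Set.mul_mem_mul ⟨k, rfl⟩ hv
  · rintro _ ⟨_, ⟨k, rfl⟩, v, hv, rfl⟩
    refine mul_mem (zpow_mem (subset_closure (by simp)) k) (closure_mono ?_ hv)
    rintro y (rfl | rfl) <;> simp

/-- The core group: an element of order three permutes three tori. -/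
theorem core {Q : Type} [Group Q] {p h : Q} {u : ℤ} {K : ℕ} (hu : (3 : ℤ) ∣ u - 1)
    (hgen : closure {p, h} = ⊤) (hp : p ^ 3 = 1) (hh : h ^ 3 ^ K = 1)
    (hX : (p⁻¹ * h * p * h) ^ 3 ^ K = 1)
    (hr : h * (p⁻¹ * h * p * h) * h⁻¹ = (p⁻¹ * h * p * h) ^ u) :
    Finite Q ∧ IsPGroup 3 Q := by
  have hp' : p⁻¹ = p * p := by
    rw [inv_eq_iff_mul_eq_one, ← hp, pow_three]
  have hp2 : p = p⁻¹ * p⁻¹ := by
    rw [← mul_inv_rev, ← hp', inv_inv]
  set X := p⁻¹ * h * p * h with hXdef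
  have cj : ∀ (c x y : Q), c * h * c⁻¹ = x → c * (p⁻¹ * h * p) * c⁻¹ = y →
      (x * y) ^ 3 ^ K = 1 ∧ x * (x * y) * x⁻¹ = (x * y) ^ u := by
    rintro c x y rfl rfl
    have e : c * h * c⁻¹ * (c * (p⁻¹ * h * p) * c⁻¹) = (c * h) * X * (c * h)⁻¹ := by
      rw [hXdef]; group
    rw [e]
    refine ⟨cj_pow _ hX, ?_⟩
    rw [conj_zpow, ← hr]
    group
  obtain ⟨h1, h2⟩ := cj 1 h (p⁻¹ * h * p) (by group) (by group)
  obtain ⟨h3, h4⟩ := cj p (p * h * p⁻¹) h (by group) (by group)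
  obtain ⟨h5, h6⟩ := cj p⁻¹ (p⁻¹ * h * p) (p * h * p⁻¹) (by group) (by
    calc _ = (p⁻¹ * p⁻¹) * h * (p * p) := by group
      _ = _ := by rw [← hp2, ← hp'])
  obtain ⟨fK, pK⟩ := triple (a := h) (b := p * h * p⁻¹) (c := p⁻¹ * h * p) hu hh
    (cj_pow p hh) (by simpa using cj_pow p⁻¹ hh) h1 h3 h5 h2 h4 h6
  set W : Subgroup Q := closure {h, p * h * p⁻¹, p⁻¹ * h * p} with hW
  have hp1 : p ^ 3 ^ 1 = 1 := by simpa using hp
  have hconj : ∀ k : ℤ, p ^ (-k) * h * p ^ k ∈ W := by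
    intro k
    have hcases : k % 3 = 0 ∨ k % 3 = 1 ∨ k % 3 = 2 := by omega
    have e : p ^ k = p ^ (k % 3) := zpow_congr hp ⟨k / 3, by push_cast; omega⟩
    rw [zpow_neg, e]
    rcases hcases with hk | hk | hk <;> rw [hk]
    · exact subset_closure (by simp)
    · exact subset_closure (by simp)
    · have e2 : p ^ (2 : ℤ) = p⁻¹ := by rw [hp', zpow_two]
      rw [e2]
      exact subset_closure (by simp)
  have htop : ((⊤ : Subgroup Q) : Set Q) = (zpowers p : Set Q) * (W : Set Q) := by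
    apply Set.Subset.antisymm _ (Set.subset_univ _)
    rintro g -
    have hg : g ∈ closure {p, h} := hgen ▸ mem_top g
    let P : Q → Prop := fun g => ∃ k : ℤ, ∃ v ∈ W, g = p ^ k * v
    have hP : P g := by
      induction hg using Subgroup.closure_induction_left with
      | one => exact ⟨0, 1, one_mem _, by simp⟩
      | mul_left y hy g _ ih =>
        obtain ⟨k, v, hv, rfl⟩ := ih
        rcases hy with rfl | rfl
        · exact ⟨k + 1, v, hv, by group⟩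
        · exact ⟨k, _, mul_mem (hconj k) hv, by group⟩
      | inv_mul_cancel y hy g _ ih =>
        obtain ⟨k, v, hv, rfl⟩ := ih
        rcases hy with rfl | rfl
        · exact ⟨k - 1, v, hv, by group⟩
        · exact ⟨k, _, mul_mem (inv_mem (hconj k)) hv, by group⟩
    obtain ⟨k, v, hv, rfl⟩ := hP
    exact Set.mul_mem_mul ⟨k, rfl⟩ hv
  obtain ⟨fT, pT⟩ := pgroup_mul (zpowers p) W ⊤ (cyc hp1).1 fK (cyc hp1).2 pK htop
  exact ⟨Finite.of_equiv _ Subgroup.topEquiv.toEquiv, pT.of_equiv Subgroup.topEquiv⟩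

end Pool.Agent.MP_6b47b1_al.Three
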