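import Mathlib.GroupTheory.PresentedGroup
import Pool.Agent.MP_6b47b1_al.T3d

set_option autoImplicit false

namespace Pool.Agent.Results.MP_6b47b1_al.ThreeGroups

open Pool.Agent.MP_6b47b1_al Pool.Agent.MP_6b47b1_al.T3

/-- For every `d` there is a finite 3-group (so a nilpotent, soluble group) with a presentation
on three generators and three relators whose derived length exceeds `d`. -/
theorem result : ∀ d : ℕ, ∃ (G : Type) (_ : Group G), Finite G ∧ IsPGroup 3 G ∧
    Group.IsSolvable G ∧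
    (∃ r : Fin 3 → FreeGroup (Fin 3), Nonempty (G ≃* PresentedGroup (Set.range r))) ∧
    derivedSeries G d ≠ ⊥ := by
  intro d
  obtain ⟨n, hn⟩ : ∃ n : ℕ, n = 3 ^ d + 1 := ⟨_, rfl⟩
  obtain ⟨k, hk⟩ : ∃ k : ℕ, 2 * (k + 1) = 3 ^ (n + 2) + 1 := by
    obtain ⟨c, hc⟩ : Odd (3 ^ (n + 2)) := Odd.pow (by decide)
    exact ⟨c, by omega⟩
  let A : FreeGroup (Fin 3) := FreeGroup.of 0
  let E : FreeGroup (Fin 3) := FreeGroup.of 1
  let X : FreeGroup (Fin 3) := FreeGroup.of 2
  let r : Fin 3 → FreeGroup (Fin 3) := ![E * A * (A ^ (-2 : ℤ) * E)⁻¹,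
    X * E ^ (k + 1) * X⁻¹ * (((A * E) ^ (k + 1))⁻¹ * X ^ 3)⁻¹,
    X ^ 3 * (A ^ 3 ^ n * E ^ 3 ^ (n + 2))⁻¹]
  let G := PresentedGroup (Set.range r)
  let a : G := PresentedGroup.of 0
  let e : G := PresentedGroup.of 1
  let x : G := PresentedGroup.of 2
  have hgen : Subgroup.closure {a, e, x} = ⊤ := by
    rw [← PresentedGroup.closure_range_of]
    congr 1
    ext g
    constructor
    · rintro (rfl | rfl | rfl)
      · exact ⟨0, rfl⟩
      · exact ⟨1, rfl⟩
      · exact ⟨2, rfl⟩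
    · rintro ⟨j, rfl⟩
      fin_cases j
      · exact Or.inl rfl
      · exact Or.inr (Or.inl rfl)
      · exact Or.inr (Or.inr rfl)
  have hR : RelG n (k + 1) a e x := by
    have h0 := PresentedGroup.one_of_mem (rels := Set.range r) ⟨0, rfl⟩
    have h1 := PresentedGroup.one_of_mem (rels := Set.range r) ⟨1, rfl⟩
    have h2 := PresentedGroup.one_of_mem (rels := Set.range r) ⟨2, rfl⟩
    simp only [r, Matrix.cons_val, map_mul, map_inv, map_pow, map_zpow] at h0 h1 h2
    exact ⟨hk, mul_inv_eq_one.1 h0, mul_inv_eq_one.1 h1, mul_inv_eq_one.1 h2⟩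
  obtain ⟨hfin, hp⟩ := hR.group hgen
  have : Fact (Nat.Prime 3) := ⟨Nat.prime_three⟩
  have : Group.IsNilpotent G := hp.isNilpotent
  refine ⟨G, inferInstance, hfin, hp, inferInstance, ⟨r, ⟨MulEquiv.refl _⟩⟩, fun hbot => ?_⟩
  let R := ZMod (3 ^ n)
  have h3 : (3 : R) ^ n = 0 := by
    have : ((3 ^ n : ℕ) : R) = 0 := ZMod.natCast_self _
    exact_mod_cast this
  obtain ⟨D, hD⟩ := model (R := R) hk h3
  let φ : Fin 3 → Matrix.SpecialLinearGroup (Fin 2) R := ![up 1, up 1 * D, up 1 * lo (-3)]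
  have hφ : ∀ w ∈ Set.range r, FreeGroup.lift φ w = 1 := by
    rintro _ ⟨j, rfl⟩
    fin_cases j
    · simpa only [r, A, E, φ, Fin.zero_eta, Matrix.cons_val, map_mul, map_inv, map_zpow,
        FreeGroup.lift_apply_of, mul_inv_eq_one] using hD.h1
    · simpa only [r, A, E, X, φ, Fin.mk_one, Matrix.cons_val, map_mul, map_inv, map_pow,
        FreeGroup.lift_apply_of, mul_inv_eq_one] using hD.h2
    · simpa only [r, A, E, X, φ, Fin.reduceFinMk, Matrix.cons_val, map_mul, map_inv, map_pow,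
        FreeGroup.lift_apply_of, mul_inv_eq_one] using hD.h3
  let f := PresentedGroup.toGroup hφ
  have fa : f a = up 1 := PresentedGroup.toGroup.of hφ
  have fx : f x = up 1 * lo (-3) := PresentedGroup.toGroup.of hφ
  have fb : f (a⁻¹ * x) = lo (-3) := by rw [map_mul, map_inv, fa, fx, inv_mul_cancel_left]
  have key := (mem_derived f fa fb ⟨n, h3⟩ (fun t => ⟨t.val, ZMod.natCast_zmod_val t⟩) d 1).1
  rw [hbot, Subgroup.map_bot, Subgroup.mem_bot] at key
  have key2 : ((3 ^ (3 ^ d) : ℕ) : R) = 0 := by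
    have := congrArg (fun M : Matrix.SpecialLinearGroup (Fin 2) R => M.1 0 1) key
    simpa [up] using this
  rw [ZMod.natCast_eq_zero_iff, Nat.pow_dvd_pow_iff_le_right (by norm_num)] at key2
  omega

end Pool.Agent.Results.MP_6b47b1_al.ThreeGroups
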