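import Pool.Agent.MP_6b47b1_al.ThreeCore

/-! The two-relator groups are finite 3-groups, and they map onto groups of matrices whose
derived length grows without bound. -/

set_option autoImplicit false

namespace Pool.Agent.MP_6b47b1_al.Three

open Subgroup

open scoped IsMulCommutative in
/-- A two-generator group whose abelianisation has exponent three and whose central quotient is a
finite 3-group is a finite 3-group. -/
theorem central_three {G : Type} [Group G] {a b : G} (hgen : closure {a, b} = ⊤)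
    (hab : ∀ (M : Type) [CommGroup M] (f : G →* M), f a ^ 3 = 1 ∧ f b ^ 3 = 1)
    (h : Finite (G ⧸ center G) ∧ IsPGroup 3 (G ⧸ center G)) :
    Finite G ∧ IsPGroup 3 G := by
  obtain ⟨h1, h2⟩ := h
  have : Fact (Nat.Prime 3) := ⟨Nat.prime_three⟩
  have hsol : Group.IsSolvable (G ⧸ center G) := by
    have := h2.isNilpotent
    infer_instance
  refine ⟨(central_step hgen 3 (by norm_num) hab ⟨h1, hsol⟩).1, ?_⟩
  have : (center G).FiniteIndex := Subgroup.finiteIndex_of_finite_quotient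
  let φ := MonoidHom.transferCenterPow G
  have hφ : ∀ g : G, φ g ^ 3 = 1 := by
    intro g
    have hg : g ∈ closure {a, b} := hgen ▸ mem_top g
    induction hg using Subgroup.closure_induction with
    | mem x hx =>
      rcases hx with rfl | rfl
      · exact (hab _ φ).1
      · exact (hab _ φ).2
    | one => simp
    | mul x y _ _ hx hy => rw [map_mul, mul_pow, hx, hy, one_mul]
    | inv x _ hx => rw [map_inv, inv_pow, hx, inv_one]
  obtain ⟨e, he⟩ := IsPGroup.iff_card.1 h2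
  have hi : (center G).index = 3 ^ e := he
  intro g
  refine ⟨e + 1, ?_⟩
  have := congrArg Subtype.val (hφ g)
  rw [pow_succ, pow_mul, ← hi]
  simpa [φ] using this

theorem conj_iter {G : Type} [Group G] {H X : G} (hr : H * X * H⁻¹ = X ^ (-2 : ℤ)) (i : ℕ)
    (s : ℤ) : H ^ i * X ^ s = X ^ ((-2) ^ i * s) * H ^ i := by
  have hs : SemiconjBy H X (X ^ (-2 : ℤ)) := by
    show H * X = X ^ (-2 : ℤ) * H
    rw [← hr]; group
  induction i with
  | zero => simp
  | succ i ih =>
    rw [pow_succ', mul_assoc, ih, ← mul_assoc, (hs.zpow_right _).eq, ← zpow_mul, mul_assoc,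
      pow_succ' (-2 : ℤ), mul_assoc]

theorem zpow_comb {G : Type} [Group G] {X : G} {s t : ℤ} (hs : X ^ s = 1) (ht : X ^ t = 1)
    (i j r : ℤ) (h : r = s * i + t * j) : X ^ r = 1 := by
  rw [h, zpow_add, zpow_mul, zpow_mul, hs, ht, one_zpow, one_zpow, one_mul]

/-- The element `X` has order dividing `3 N`. -/
theorem order_X {G : Type} [Group G] {p H X : G} (k n : ℕ) (hn : 3 ^ k = 2 * n + 1)
    (hX : X = p⁻¹ * H ^ (n + 1) * p * (H ^ n)⁻¹)
    (h1 : p ^ 3 = X ^ ((3 : ℤ) ^ k * ((-2) ^ (n + 1) - 1)) * H ^ (2 * n + 1))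
    (h2 : H * X * H⁻¹ = X ^ (-2 : ℤ)) : X ^ (3 * (3 : ℤ) ^ k) = 1 := by
  set N : ℤ := 3 ^ k with hN
  obtain ⟨w, hw⟩ := pow_one_mod (u := -2) (by norm_num) (n + 1)
  obtain ⟨v, hv⟩ := pow_one_mod (u := -2) (by norm_num) n
  obtain ⟨w0, hw0⟩ := two_pow_three_pow k
  have hA : (-2 : ℤ) ^ (2 * n + 1) = 1 - 3 * N * (1 + 3 * w0) := by
    rw [Odd.neg_pow ⟨n, rfl⟩, ← hn, hw0, hN]; ring
  have hwv : 1 + 3 * w = -2 * (1 + 3 * v) := by rw [← hw, ← hv]; ring
  have hA' : (1 + 3 * w) * (1 + 3 * v) = 1 - 3 * N * (1 + 3 * w0) := by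
    rw [← hA, ← hw, ← hv]; ring
  set M : ℤ := N * ((-2) ^ (n + 1) - 1) with hM
  have hM' : M = 3 * N * w := by rw [hM, hw]; ring
  have c := conj_iter h2
  have hH1 : p⁻¹ * H ^ (n + 1) * p = X * H ^ n := by rw [hX]; group
  set z := p ^ 3 with hz
  have hzp : p⁻¹ * z * p = z := by rw [hz]; group
  set d : ℤ := 9 * N * w ^ 2 with hd
  set d' : ℤ := 3 * N * (1 + 3 * (w0 + w * v)) with hd'
  have C1 : H ^ (n + 1) * z * (H ^ (n + 1))⁻¹ * z⁻¹ = X ^ d := by
    rw [h1]
    calc _ = (H ^ (n + 1) * X ^ M) * (H ^ (n + 1))⁻¹ * X ^ (-M) := by group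
      _ = X ^ ((-2) ^ (n + 1) * M - M) := by rw [c]; group
      _ = _ := by rw [hw, hM', hd]; congr 1; ring
  have C2 : (X * H ^ n) * z * (X * H ^ n)⁻¹ * z⁻¹ = X ^ d' := by
    rw [h1]
    calc _ = X * (H ^ n * X ^ M) * (H ^ n)⁻¹ * (H ^ (2 * n + 1) * X ^ (-1 : ℤ))
          * (H ^ (2 * n + 1))⁻¹ * X ^ (-M) := by group
      _ = X ^ (1 + (-2) ^ n * M + (-2) ^ (2 * n + 1) * (-1) - M) := by rw [c, c]; group
      _ = _ := by rw [hv, hA, hM', hd']; congr 1; ring
  have T : p⁻¹ * X ^ d * p = X ^ d' := by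
    rw [← C1, ← C2, ← hH1]
    nth_rw 3 4 [← hzp]
    group
  have TT : ∀ r : ℤ, p⁻¹ * X ^ (d * r) * p = X ^ (d' * r) := by
    intro r
    have := conj_zpow (a := p⁻¹) (b := X ^ d) (i := r)
    rw [inv_inv, T] at this
    rw [zpow_mul X d, zpow_mul X d', this]
  have T2 : X ^ (3 * d') = 1 := by
    have e1 : p⁻¹ * (H ^ (n + 1) * X ^ d) * p = X * (H ^ n * X ^ d') := by
      rw [← T, ← mul_assoc X, ← hH1]; group
    rw [c, c] at e1
    have e2 : p⁻¹ * (X ^ ((-2) ^ (n + 1) * d) * H ^ (n + 1)) * p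
        = X ^ ((-2) ^ (n + 1) * d') * (X * H ^ n) := by
      rw [← hH1, mul_comm _ d, mul_comm _ d', ← TT]; group
    rw [e2] at e1
    have e5 : X ^ ((-2) ^ (n + 1) * d' + 1) = X ^ (1 + (-2) ^ n * d') := by
      apply mul_right_cancel (b := H ^ n)
      rw [zpow_add, zpow_add, zpow_one, mul_assoc, mul_assoc]
      exact e1
    have e3 : X ^ ((-2) ^ n * (3 * d')) = 1 := by
      have e6 : (-2 : ℤ) ^ n * (3 * d') = (1 + (-2) ^ n * d') - ((-2) ^ (n + 1) * d' + 1) := by
        ring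
      rw [e6, zpow_sub, e5, mul_inv_cancel]
    have e4 := c n (3 * d')
    rw [e3, one_mul] at e4
    simpa using e4
  have T3 : X ^ (3 * d) = 1 := by
    have e1 : p⁻¹ * X ^ (3 * d) * p = 1 := by
      rw [← T2, mul_comm 3 d, mul_comm 3 d', TT]
    calc _ = p * (p⁻¹ * X ^ (3 * d) * p) * p⁻¹ := by group
      _ = 1 := by rw [e1]; group
  have I1 : 2 * N * (1 + 3 * (w0 + w * v)) - w * (2 + 3 * w + 6 * N * v) = 1 := by
    have : 3 * (2 * N * (1 + 3 * (w0 + w * v)) - w * (2 + 3 * w + 6 * N * v)) = 3 * 1 := by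
      linear_combination 2 * hA' - (1 + 3 * w) * hwv
    exact mul_left_cancel₀ (by norm_num) this
  have T4 : X ^ (27 * N) = 1 := by
    refine zpow_comb T2 T3
      (6 * N * (2 * N * (1 + 3 * (w0 + w * v)) - 2 * (w * (2 + 3 * w + 6 * N * v))))
      ((2 + 3 * w + 6 * N * v) ^ 2) _ ?_
    rw [hd, hd']
    linear_combination (-27 * N * (1 + (2 * N * (1 + 3 * (w0 + w * v))
      - w * (2 + 3 * w + 6 * N * v)))) * I1
  have T5 : X ^ (9 * N) = 1 :=
    zpow_comb T2 T4 1 (-(w0 + w * v)) _ (by rw [hd']; ring)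
  have T6 : X ^ d' = 1 := by
    rw [← T, hd, zpow_mul, T5, one_zpow]; group
  exact zpow_comb T6 T5 1 (-(w0 + w * v)) _ (by rw [hd']; ring)

/-- The two-relator group is a finite 3-group. -/
theorem finite_three {G : Type} [Group G] {p H X : G} (k n : ℕ) (hn : 3 ^ (k + 1) = 2 * n + 1)
    (hgen : closure {p, H} = ⊤) (hX : X = p⁻¹ * H ^ (n + 1) * p * (H ^ n)⁻¹)
    (h1 : p ^ 3 = X ^ ((3 : ℤ) ^ (k + 1) * ((-2) ^ (n + 1) - 1)) * H ^ (2 * n + 1))
    (h2 : H * X * H⁻¹ = X ^ (-2 : ℤ)) : Finite G ∧ IsPGroup 3 G := by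
  have hO := order_X (k + 1) n hn hX h1 h2
  obtain ⟨w, hw⟩ := pow_one_mod (u := -2) (by norm_num) (n + 1)
  have h3 : p ^ 3 = H ^ (2 * n + 1) := by
    have e : (3 : ℤ) ^ (k + 1) * ((-2) ^ (n + 1) - 1) = 3 * 3 ^ (k + 1) * w := by rw [hw]; ring
    rw [h1, e, zpow_mul, hO, one_zpow, one_mul]
  have zc : p ^ 3 ∈ center G := mem_center_of_gen hgen ((Commute.refl p).pow_left 3)
    (by rw [h3]; exact (Commute.refl H).pow_left _)
  apply central_three hgen
  · intro M _ f
    have e1 : f X = f H := by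
      rw [hX]
      simp only [map_mul, map_inv, map_pow]
      rw [mul_comm (f p)⁻¹, inv_mul_cancel_right, pow_succ', mul_inv_cancel_right]
    have e2 := congrArg f h2
    simp only [map_mul, map_inv, map_zpow, e1] at e2
    have e3 : f H ^ 3 = 1 := by
      have e4 : f H ^ (3 : ℤ) = f H * (f H ^ (-2 : ℤ))⁻¹ := by group
      rw [← e2] at e4
      have e5 : f H ^ (3 : ℤ) = 1 := by rw [e4]; group
      exact_mod_cast e5
    refine ⟨?_, e3⟩
    rw [← map_pow, h3, map_pow, ← hn, pow_succ', pow_mul, e3, one_pow]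
  · let π := QuotientGroup.mk' (center G)
    have e1 : π p ^ 3 = 1 := by rw [← map_pow]; exact (QuotientGroup.eq_one_iff _).2 zc
    have e2 : π H ^ (2 * n + 1) = 1 := by rw [← map_pow, ← h3, map_pow, e1]
    have e3 : (π H ^ n)⁻¹ = π H ^ (n + 1) := by
      apply inv_eq_of_mul_eq_one_right
      rw [← pow_add, ← e2]; congr 1; ring
    have e4 : π X = (π p)⁻¹ * π H ^ (n + 1) * π p * π H ^ (n + 1) := by
      rw [hX]
      simp only [map_mul, map_inv, map_pow, e3]
    have e5 : π H = π H ^ (n + 1) * π H ^ (n + 1) := by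
      rw [← pow_add, show n + 1 + (n + 1) = 2 * n + 1 + 1 by ring, pow_succ, e2, one_mul]
    refine core (p := π p) (h := π H ^ (n + 1)) (u := (-2) ^ (n + 1)) (K := k + 2)
      ⟨w, by rw [hw]; ring⟩ ?_ e1 ?_ ?_ ?_
    · rw [eq_top_iff, ← gen_quot hgen (center G), closure_le]
      rintro y (rfl | rfl)
      · exact subset_closure (Or.inl rfl)
      · have hm : π H ^ (n + 1) ∈ closure {π p, π H ^ (n + 1)} := subset_closure (Or.inr rfl)
        have := mul_mem hm hm
        rw [← e5] at this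
        exact this
    · rw [← pow_mul, mul_comm, pow_succ 3 (k + 1), hn, mul_assoc, pow_mul, e2, one_pow]
    · rw [← e4, ← map_pow]
      have : X ^ 3 ^ (k + 2) = 1 := by
        rw [← hO, ← zpow_natCast]; congr 1; push_cast; ring
      rw [this, map_one]
    · rw [← e4, ← map_pow, ← map_inv, ← map_mul, ← map_mul, ← map_zpow]
      congr 1
      have := conj_iter h2 (n + 1) 1
      rw [zpow_one, mul_one] at this
      rw [this]; group

section Mat

open Matrix MatrixGroups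

variable {R : Type} [CommRing R]

/-- An element of order three permuting three cusps. -/
def rho : SL(2, R) := ⟨!![0, 1; -1, -1], by simp [det_fin_two]⟩

theorem rho_cube : (rho : SL(2, R)) ^ 3 = 1 := by
  rw [pow_three]
  ext i j; fin_cases i <;> fin_cases j <;> simp [rho]

theorem rho_up (s : R) : rho * up s = lo (-s) * rho := by
  ext i j; fin_cases i <;> fin_cases j <;> simp [rho, up, lo]

theorem rho_dg (g g' : R) (h : g * g' = 1) :
    rho⁻¹ * dg g g' h * rho * dg g g' h = up (g' ^ 2 - 1) := by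
  rw [mul_assoc, mul_assoc, inv_mul_eq_iff_eq_mul]
  ext i j; fin_cases i <;> fin_cases j <;> simp [rho, up, dg]
  · linear_combination h
  · linear_combination h
  · ring

theorem dg_pow (g g' : R) (h : g * g' = 1) (i : ℕ) :
    dg g g' h ^ i = dg (g ^ i) (g' ^ i) (by rw [← mul_pow, h, one_pow]) := by
  induction i with
  | zero => ext a b; fin_cases a <;> fin_cases b <;> simp [dg]
  | succ i ih =>
    rw [pow_succ, ih]
    ext a b; fin_cases a <;> fin_cases b <;> simp [dg, pow_succ]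

theorem dg_up (g g' s : R) (h : g * g' = 1) :
    dg g g' h * up s * (dg g g' h)⁻¹ = up (g ^ 2 * s) := by
  rw [mul_inv_eq_iff_eq_mul]
  ext i j; fin_cases i <;> fin_cases j <;> simp [up, dg]
  linear_combination (-(g * s)) * h

theorem up_zpow (s : R) (k : ℤ) : up s ^ k = up (k * s) := by
  obtain ⟨m, rfl | rfl⟩ := k.eq_nat_or_neg
  · rw [zpow_natCast, up_pow]; simp
  · rw [zpow_neg, zpow_natCast, up_pow, up_inv]; simp

theorem dg_eq' (e v : R) (h : v * (1 + e ^ 2) = 1) :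
    dg v (1 + e ^ 2) h = up (-(e * v)) * (lo e * up e) * lo (-(e * v)) := by
  ext i j; fin_cases i <;> fin_cases j <;> simp [up, lo, dg]
  · linear_combination (1 - e ^ 2 * v) * h
  · linear_combination e * h
  · linear_combination e * h
  · ring

theorem up_mem {G : Type} [Group G] (f : G →* SL(2, R)) {p : G} (hp : f p = rho)
    (h0 : ∀ t : R, up (3 * t) ∈ f.range) (h3 : IsNilpotent (3 : R))
    (i : ℕ) : ∀ t : R, up (3 ^ (3 ^ i) * t) ∈ (derivedSeries G i).map f := by
  induction i with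
  | zero =>
    intro t
    obtain ⟨g, hg⟩ := h0 t
    exact ⟨g, mem_top _, by simpa using hg⟩
  | succ i ih =>
    intro t
    set N := (derivedSeries G i).map f with hN
    set e : R := 3 ^ (3 ^ i) with he
    have hconj : ∀ g : G, ∀ y ∈ N, f g * y * (f g)⁻¹ ∈ N := by
      rintro g _ ⟨y, hy, rfl⟩
      exact ⟨g * y * g⁻¹, (derivedSeries_normal G i).conj_mem y hy g, by simp⟩
    have hlo : ∀ t : R, lo (e * t) ∈ N := by
      intro t
      have := hconj p _ (ih (-t))
      rw [hp, rho_up, mul_inv_cancel_right] at this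
      simpa using this
    have hnil : IsNilpotent (e ^ 2) := by
      rw [he, ← pow_mul]
      exact h3.pow_of_pos (by positivity)
    have hnil' : IsNilpotent (-(3 + e ^ 2)) := ((Commute.all _ _).isNilpotent_add h3 hnil).neg
    obtain ⟨v, hv⟩ := hnil.isUnit_one_add.exists_left_inv
    obtain ⟨v', hv'⟩ := hnil'.isUnit_one_add.exists_left_inv
    have hD : dg v (1 + e ^ 2) hv ∈ N := by
      rw [dg_eq']
      refine mul_mem (mul_mem (by simpa using ih (-v)) (mul_mem ?_ ?_)) (by simpa using hlo (-v))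
      · simpa using hlo 1
      · simpa using ih 1
    have hcomm := commutator_mem_commutator (inv_mem hD) (ih (-(v' * t)))
    rw [derivedSeries_succ, Subgroup.map_commutator]
    convert hcomm using 1
    rw [commutatorElement_def, inv_inv, dg_conj, up_inv, up_mul]
    congr 1
    rw [pow_succ 3 i, pow_mul, ← he]
    linear_combination (-(e ^ 3 * t)) * hv'

/-- The diagonal matrix that represents the second generator. -/
theorem rep (k n : ℕ) (hn : 3 ^ (k + 1) = 2 * n + 1) (h0 : (3 : R) ^ (k + 2) = 0) :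
    ∃ (D : SL(2, R)) (c e : R), rho⁻¹ * D ^ (n + 1) * rho * (D ^ n)⁻¹ = up (3 * c) ∧
      (rho : SL(2, R)) ^ 3
        = up (3 * c) ^ ((3 : ℤ) ^ (k + 1) * ((-2) ^ (n + 1) - 1)) * D ^ (2 * n + 1) ∧
      D * up (3 * c) * D⁻¹ = up (3 * c) ^ (-2 : ℤ) ∧
      rho⁻¹ * D * rho * D = up e ∧ -2 * e = 3 := by
  have hA : (-2 : R) ^ (2 * n + 1) = 1 := by
    obtain ⟨w, hw⟩ := two_pow_three_pow (k + 1)
    have := congrArg (Int.cast : ℤ → R) hw
    push_cast at this
    rw [Odd.neg_pow ⟨n, rfl⟩, ← hn, this, h0]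
    ring
  obtain ⟨a, ha⟩ : ∃ a : R, a = (-2) ^ (n + 1) := ⟨_, rfl⟩
  have ha2 : a ^ 2 = -2 := by
    rw [ha, ← pow_mul, show (n + 1) * 2 = 2 * n + 1 + 1 by ring, pow_succ, hA, one_mul]
  have haN : a ^ (2 * n + 1) = 1 := by rw [ha, ← pow_mul, mul_comm, pow_mul, hA, one_pow]
  obtain ⟨b, hb⟩ : ∃ b : R, b = a ^ (2 * n) := ⟨_, rfl⟩
  have hab : a * b = 1 := by rw [hb, ← pow_succ', haN]
  have hbN : b ^ (2 * n + 1) = 1 := by rw [hb, ← pow_mul, mul_comm, pow_mul, haN, one_pow]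
  obtain ⟨c, hc⟩ : ∃ c : R, (b ^ (n + 1)) ^ 2 - 1 = 3 * c := by
    obtain ⟨t, ht⟩ := pow_one_mod (u := -2) (by norm_num) ((n + 1) * (2 * n) * (n + 1) * 2)
    have := congrArg (Int.cast : ℤ → R) ht
    push_cast at this
    exact ⟨t, by rw [hb, ha, ← pow_mul, ← pow_mul, ← pow_mul, ← mul_assoc, ← mul_assoc, this]; ring⟩
  have hDN : dg a b hab ^ (2 * n + 1) = 1 := by
    rw [dg_pow]
    ext i j; fin_cases i <;> fin_cases j <;> simp [dg, haN, hbN]
  have hDn : (dg a b hab ^ n)⁻¹ = dg a b hab ^ (n + 1) := by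
    apply inv_eq_of_mul_eq_one_right
    rw [← pow_add, ← hDN]; congr 1; ring
  refine ⟨dg a b hab, c, b ^ 2 - 1, ?_, ?_, ?_, rho_dg a b hab, ?_⟩
  · rw [hDn, dg_pow, rho_dg, hc]
  · have e : ((((3 : ℤ) ^ (k + 1) * ((-2) ^ (n + 1) - 1) : ℤ) : R) * (3 * c)) = 0 := by
      push_cast
      linear_combination (((-2) ^ (n + 1) - 1) * c) * h0
    rw [rho_cube, hDN, up_zpow, e, up_zero, one_mul]
  · rw [up_zpow, dg_up, ha2]
    congr 1
    push_cast
    ring
  · linear_combination (-b ^ 2) * ha2 + (a * b + 1) * hab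

end Mat

end Pool.Agent.MP_6b47b1_al.Three
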